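import Pool.Agent.Lib.MP_3c6092_nt.LE.Spec

/-!
# Module BSB: the number of the smaller bases for given exponents
-/

set_option autoImplicit false

namespace Pool.Agent.Lib.MP3c6092.LE

open Finset Pool.Agent.Lib.MP3c6092

namespace BSBM

/-- the `s`-th root of `N` bounds `m` if `m ^ s ≤ N` -/
theorem le_root {m s N : ℕ} (hs : 1 ≤ s) (h : m ^ s ≤ N) :
    (m : ℝ) ≤ (N : ℝ) ^ (1 / (s : ℝ)) := by
  have hs0 : (s : ℝ) ≠ 0 := by
    have : s ≠ 0 := by omega
    exact_mod_cast this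
  have h1 : ((m : ℝ) ^ s) ≤ (N : ℝ) := by exact_mod_cast h
  have h2 : ((m : ℝ) ^ s) ^ (1 / (s : ℝ)) ≤ (N : ℝ) ^ (1 / (s : ℝ)) :=
    Real.rpow_le_rpow (by positivity) h1 (by positivity)
  rw [← Real.rpow_natCast, ← Real.rpow_mul (Nat.cast_nonneg m), mul_one_div_cancel hs0,
    Real.rpow_one] at h2
  exact h2

end BSBM

open BSBM

theorem specBSB (hFIB : SpecFIB) : SpecBSB := by
  classical
  intro s K hs hK
  obtain ⟨D, M, X₀, hfib⟩ := hFIB s K hs hK
  refine ⟨max M 1, (X₀ : ℝ) + 3 + 2 * D, le_max_right _ _, by positivity, ?_⟩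
  intro N m n hN hco hMm hn hmN
  have hm1 : 1 ≤ m := (le_max_right M 1).trans hMm
  have hMm' : M ≤ m := (le_max_left M 1).trans hMm
  have hs0 : (0 : ℝ) < s := by exact_mod_cast (by omega : 0 < s)
  have hs1 : (1 : ℝ) ≤ s := by exact_mod_cast hs
  have hN1 : (1 : ℝ) ≤ N := by exact_mod_cast hN
  set T : ℝ := (N : ℝ) ^ (1 / (s : ℝ)) with hT
  have hT1 : 1 ≤ T := Real.one_le_rpow hN1 (by positivity)
  have hX₀ : (0 : ℝ) ≤ X₀ := Nat.cast_nonneg _
  have hD : (0 : ℝ) ≤ D := Nat.cast_nonneg _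
  set C : ℝ := (X₀ : ℝ) + 3 + 2 * D with hC
  have hC3 : 3 ≤ C := by rw [hC]; linarith
  have hL : (1 : ℝ) ≤ ((Nat.log 2 N + 1 : ℕ) : ℝ) := by
    push_cast
    linarith [(Nat.cast_nonneg (Nat.log 2 N) : (0 : ℝ) ≤ _)]
  have hCT : 0 ≤ C * T := by positivity
  by_cases hns : s * m < n
  · have h1 := card_Bs_triv (k := K) (N := N) hm1 hn
    have hn0 : (0 : ℝ) < n := by exact_mod_cast (by omega : 0 < n)
    have h2 : (m : ℝ) / n ≤ 1 / s := by
      rw [div_le_div_iff₀ hn0 hs0, one_mul]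
      have : m * s ≤ n := by rw [mul_comm]; exact hns.le
      exact_mod_cast this
    have h3 : (2 * (N : ℝ)) ^ ((m : ℝ) / n) ≤ (2 * (N : ℝ)) ^ (1 / (s : ℝ)) :=
      Real.rpow_le_rpow_of_exponent_le (by linarith) h2
    have h4 : (2 * (N : ℝ)) ^ (1 / (s : ℝ)) ≤ 2 * T := by
      rw [Real.mul_rpow (by norm_num) (by positivity)]
      have h5 : (2 : ℝ) ^ (1 / (s : ℝ)) ≤ 2 ^ (1 : ℝ) := by
        apply Real.rpow_le_rpow_of_exponent_le (by norm_num)
        rw [div_le_one hs0]
        exact hs1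
      rw [Real.rpow_one] at h5
      exact mul_le_mul_of_nonneg_right h5 (by positivity)
    calc ((Bs K m n N).card : ℝ) ≤ 2 * T := h1.trans (h3.trans h4)
      _ ≤ C * T := mul_le_mul_of_nonneg_right (by linarith) (by linarith)
      _ ≤ C * T * ((Nat.log 2 N + 1 : ℕ) : ℝ) := le_mul_of_one_le_right hCT hL
  rw [not_lt] at hns
  set F := Bs K m n N with hF
  have h1 : F.card ≤ ⌊C * T⌋₊ * (F.image (Nat.log 2)).card := by
    refine Finset.card_le_mul_card_image F _ ?_
    intro j _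
    apply Nat.le_floor
    set Fj := F.filter (fun x => Nat.log 2 x = j) with hFj
    have hmem : ∀ b ∈ Fj, 2 ^ j ≤ b ∧ b < 2 ^ (j + 1) := by
      intro b hb
      rw [hFj, mem_filter] at hb
      have hb0 : b ≠ 0 := by
        have := hb.1
        simp only [hF, Bs, mem_filter] at this
        omega
      constructor
      · rw [← hb.2]; exact Nat.pow_log_le_self 2 hb0
      · rw [← hb.2]; exact Nat.lt_pow_succ_log_self (by norm_num) b
    rcases Fj.eq_empty_or_nonempty with h0 | ⟨b₀, hb₀⟩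
    · rw [h0, Finset.card_empty, Nat.cast_zero]
      exact hCT
    set X : ℝ := (2 : ℝ) ^ j with hX
    have hX0 : 0 < X := by positivity
    have hXN : X ≤ N := by
      have h2 : b₀ ≤ N := by
        have h3 := (mem_filter.1 hb₀).1
        simp only [hF, Bs, mem_filter, mem_range] at h3
        omega
      have h4 : 2 ^ j ≤ N := (hmem b₀ hb₀).1.trans h2
      rw [hX]
      exact_mod_cast h4
    have hcardX : (Fj.card : ℝ) ≤ X := by
      have h2 : Fj ⊆ Finset.Ico (2 ^ j) (2 ^ (j + 1)) := by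
        intro b hb
        rw [Finset.mem_Ico]
        exact hmem b hb
      have h3 := Finset.card_le_card h2
      rw [Nat.card_Ico, pow_succ] at h3
      have h4 : Fj.card ≤ 2 ^ j := by omega
      rw [hX]
      exact_mod_cast h4
    have hFX : ∀ b ∈ Fj, X ≤ b ∧ (b : ℝ) ≤ 2 * X := by
      intro b hb
      obtain ⟨h1, h2⟩ := hmem b hb
      constructor
      · rw [hX]; exact_mod_cast h1
      · have : (b : ℝ) ≤ 2 ^ (j + 1) := by exact_mod_cast h2.le
        rw [hX]; rw [pow_succ] at this; linarith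
    by_cases hXX : (X₀ : ℝ) ≤ X
    · by_cases hmX : (m : ℝ) ≤ 2 * X
      · have h2 := hfib m n X Fj hco hMm' hns hXX hmX hFX (by
          intro b hb
          have h3 := (mem_filter.1 hb).1
          simp only [hF, Bs, mem_filter] at h3
          obtain ⟨_, _, a, hba, _, hbad⟩ := h3
          exact ⟨a, hba, hbad⟩)
        have h3 : X ^ (1 / (s : ℝ)) ≤ T := Real.rpow_le_rpow hX0.le hXN (by positivity)
        calc (Fj.card : ℝ) ≤ (X ^ (1 / (s : ℝ)) + 1) * D := h2
          _ ≤ (T + T) * D := by gcongr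
          _ = 2 * D * T := by ring
          _ ≤ C * T := mul_le_mul_of_nonneg_right (by rw [hC]; linarith) (by linarith)
      · rw [not_le] at hmX
        have h2 : (m : ℝ) ≤ T := le_root hs hmN
        calc (Fj.card : ℝ) ≤ X := hcardX
          _ ≤ 1 * T := by linarith
          _ ≤ C * T := mul_le_mul_of_nonneg_right (by linarith) (by linarith)
    · rw [not_le] at hXX
      calc (Fj.card : ℝ) ≤ X := hcardX
        _ ≤ X₀ := hXX.le
        _ ≤ X₀ * T := le_mul_of_one_le_right hX₀ hT1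
        _ ≤ C * T := mul_le_mul_of_nonneg_right (by rw [hC]; linarith) (by linarith)
  have h2 : F.image (Nat.log 2) ⊆ range (Nat.log 2 N + 1) := by
    intro j hj
    obtain ⟨b, hb, rfl⟩ := Finset.mem_image.mp hj
    rw [Finset.mem_range, Nat.lt_succ_iff]
    apply Nat.log_mono_right
    simp only [hF, Bs, mem_filter, mem_range] at hb
    omega
  have h3 := Finset.card_le_card h2
  rw [Finset.card_range] at h3
  calc (F.card : ℝ) ≤ ((⌊C * T⌋₊ * (F.image (Nat.log 2)).card : ℕ) : ℝ) := by exact_mod_cast h1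
    _ = (⌊C * T⌋₊ : ℝ) * ((F.image (Nat.log 2)).card : ℝ) := by push_cast; ring
    _ ≤ C * T * ((Nat.log 2 N + 1 : ℕ) : ℝ) := by
        have h4 : (⌊C * T⌋₊ : ℝ) ≤ C * T := Nat.floor_le hCT
        have h5 : ((F.image (Nat.log 2)).card : ℝ) ≤ ((Nat.log 2 N + 1 : ℕ) : ℝ) := by
          exact_mod_cast h3
        gcongr

end Pool.Agent.Lib.MP3c6092.LE
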