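import Pool.Agent.Lib.MP_3c6092_nt.LE.Spec

/-!
# MP_3c6092_nt, LE: module ERR (the error of one monomial)
-/

set_option autoImplicit false

namespace Pool.Agent.Lib.MP3c6092.LE

open Finset Pool.Agent.Lib.MP3c6092

namespace ERRM

theorem pow_err {u τ : ℝ} (h1 : |1 - u| ≤ τ) (h0 : 0 ≤ u) (h2 : u ≤ 2) (j : ℕ) :
    |1 - u ^ j| ≤ 2 ^ j * τ := by
  have hτ : 0 ≤ τ := (abs_nonneg _).trans h1
  induction j with
  | zero => simpa using hτ
  | succ j ih =>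
    have h3 : 1 - u ^ (j + 1) = (1 - u ^ j) + u ^ j * (1 - u) := by ring
    rw [h3]
    refine (abs_add_le _ _).trans ?_
    rw [abs_mul, abs_of_nonneg (pow_nonneg h0 j)]
    have h4 : u ^ j * |1 - u| ≤ 2 ^ j * τ :=
      mul_le_mul (pow_le_pow_left₀ h0 h2 j) h1 (abs_nonneg _) (by positivity)
    have h5 : (2 : ℝ) ^ (j + 1) * τ = 2 ^ j * τ + 2 ^ j * τ := by ring
    rw [h5]
    exact add_le_add ih h4

end ERRM

open ERRM in
theorem specERR : SpecERR := by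
  intro K a b m n d i j Θ X hK hB hm hba hX hXb hb2 hn hτ hi hj
  have hBpos : (0 : ℝ) < b := by linarith
  have hB1 : (1 : ℝ) ≤ b := by linarith
  have hAb : (b : ℝ) < a := by exact_mod_cast hba
  have hA1 : (1 : ℝ) ≤ a := by linarith
  have hApos : (0 : ℝ) < a := by linarith
  have hmR : (0 : ℝ) < m := by exact_mod_cast hm
  have hKR : (0 : ℝ) < K := by exact_mod_cast hK
  have hXpos : 0 < X := by linarith
  obtain ⟨β, hβ⟩ : ∃ β : ℝ, β = (b : ℝ) ^ ((n : ℝ) / m) := ⟨_, rfl⟩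
  have hβpos : 0 < β := by rw [hβ]; exact Real.rpow_pos_of_pos hBpos _
  have hβm : β ^ m = (b : ℝ) ^ n := by
    rw [hβ, ← Real.rpow_natCast, ← Real.rpow_mul hBpos.le, div_mul_cancel₀ _ hmR.ne', Real.rpow_natCast]
  obtain ⟨τ, hτd⟩ : ∃ τ : ℝ, τ = (X ^ ((m : ℝ) / K))⁻¹ := ⟨_, rfl⟩
  have hXp : 0 < X ^ ((m : ℝ) / K) := Real.rpow_pos_of_pos hXpos _
  have hτpos : 0 < τ := by rw [hτd]; positivity
  have hτ2 : τ ≤ 1 / 2 := by
    rw [hτd]
    have := inv_anti₀ (by norm_num : (0 : ℝ) < 2) hτ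
    linarith
  obtain ⟨u, hu⟩ : ∃ u : ℝ, u = β / a := ⟨_, rfl⟩
  have hu0 : 0 < u := by rw [hu]; positivity
  have hua : u * a = β := by rw [hu]; field_simp
  have hum : |1 - u ^ m| ≤ τ := by
    have h1 : 1 - u ^ m = ((a : ℝ) ^ m - (b : ℝ) ^ n) / (a : ℝ) ^ m := by
      rw [hu, div_pow, hβm]
      field_simp
    rw [h1, abs_div, abs_of_pos (by positivity : (0 : ℝ) < (a : ℝ) ^ m)]
    have h2 := hB.2.le
    have h3 : |(a : ℝ) ^ m - (b : ℝ) ^ n| / (a : ℝ) ^ m ≤ (a : ℝ) ^ ((1 - 1 / (K : ℝ)) * m - 1) / (a : ℝ) ^ m :=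
      div_le_div_of_nonneg_right h2 (by positivity)
    refine h3.trans ?_
    have h4 : (a : ℝ) ^ ((1 - 1 / (K : ℝ)) * m - 1) / (a : ℝ) ^ m = (a : ℝ) ^ (-((m : ℝ) / K) - 1) := by
      rw [← Real.rpow_natCast (a : ℝ) m, ← Real.rpow_sub hApos]
      congr 1
      ring
    rw [h4]
    have h5 : (a : ℝ) ^ (-((m : ℝ) / K) - 1) ≤ (a : ℝ) ^ (-((m : ℝ) / K)) :=
      Real.rpow_le_rpow_of_exponent_le hA1 (by linarith)
    refine h5.trans ?_
    rw [Real.rpow_neg hApos.le, hτd]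
    refine inv_anti₀ hXp ?_
    exact Real.rpow_le_rpow hXpos.le (by linarith) (by positivity)
  have hu1 : |1 - u| ≤ τ := by
    have h1 := pow_diff (x := 1) (y := u) zero_le_one hu0.le hm
    rw [one_pow, one_pow, mul_one] at h1
    exact h1.trans hum
  have hu2 := abs_le.1 hu1
  have hule : u ≤ 2 := by linarith [hu2.1]
  have huge : 1 / 2 ≤ u := by linarith [hu2.2]
  have hj1 := pow_err hu1 hu0.le hule j
  have hAj : |(a : ℝ) ^ j - β ^ j| ≤ 4 ^ j * β ^ j * τ := by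
    have h1 : (a : ℝ) ^ j - β ^ j = (a : ℝ) ^ j * (1 - u ^ j) := by
      rw [← hua, mul_pow]
      ring
    rw [h1, abs_mul, abs_of_pos (by positivity : (0 : ℝ) < (a : ℝ) ^ j)]
    have h2 : (a : ℝ) ≤ 2 * β := by rw [← hua]; nlinarith
    have h3 : (a : ℝ) ^ j ≤ 2 ^ j * β ^ j := by
      rw [← mul_pow]
      exact pow_le_pow_left₀ hApos.le h2 j
    calc (a : ℝ) ^ j * |1 - u ^ j| ≤ (2 ^ j * β ^ j) * (2 ^ j * τ) :=
          mul_le_mul h3 hj1 (abs_nonneg _) (by positivity)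
      _ = 4 ^ j * β ^ j * τ := by
          rw [show (4 : ℝ) = 2 * 2 by norm_num, mul_pow]
          ring
  have hsplit : (b : ℝ) ^ ((i : ℝ) + (n : ℝ) / m * j) = (b : ℝ) ^ i * β ^ j := by
    rw [Real.rpow_add hBpos, Real.rpow_natCast, hβ, ← Real.rpow_natCast ((b : ℝ) ^ ((n : ℝ) / m)) j,
      ← Real.rpow_mul hBpos.le]
  have hmain : |(b : ℝ) ^ i * (a : ℝ) ^ j - (b : ℝ) ^ ((i : ℝ) + (n : ℝ) / m * j)| ≤
      4 ^ j * (b : ℝ) ^ ((i : ℝ) + (n : ℝ) / m * j) * τ := by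
    rw [hsplit, ← mul_sub, abs_mul, abs_of_pos (by positivity : (0 : ℝ) < (b : ℝ) ^ i)]
    calc (b : ℝ) ^ i * |(a : ℝ) ^ j - β ^ j| ≤ (b : ℝ) ^ i * (4 ^ j * β ^ j * τ) :=
          mul_le_mul_of_nonneg_left hAj (by positivity)
      _ = 4 ^ j * ((b : ℝ) ^ i * β ^ j) * τ := by ring
  refine hmain.trans ?_
  have hnm : (n : ℝ) / m ≤ Θ := by
    rw [div_le_iff₀ hmR]
    exact hn
  have hnm0 : (0 : ℝ) ≤ (n : ℝ) / m := by positivity
  have hexp : (i : ℝ) + (n : ℝ) / m * j ≤ (d : ℝ) * (1 + Θ) := by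
    have h1 : (i : ℝ) ≤ d := by exact_mod_cast hi.le
    have h2 : (j : ℝ) ≤ d := by exact_mod_cast hj.le
    have h3 : (n : ℝ) / m * j ≤ Θ * d := mul_le_mul hnm h2 (by positivity) (by linarith)
    linarith
  have hbp : (b : ℝ) ^ ((i : ℝ) + (n : ℝ) / m * j) ≤ (2 * X) ^ ((d : ℝ) * (1 + Θ)) := by
    refine (Real.rpow_le_rpow hBpos.le hb2 (by positivity)).trans ?_
    exact Real.rpow_le_rpow_of_exponent_le (by linarith) hexp
  have h4 : (4 : ℝ) ^ j ≤ 4 ^ d := pow_le_pow_right₀ (by norm_num) hj.le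
  have e : 4 ^ d * (2 * X) ^ ((d : ℝ) * (1 + Θ)) / X ^ ((m : ℝ) / K) =
      4 ^ d * (2 * X) ^ ((d : ℝ) * (1 + Θ)) * τ := by rw [hτd, div_eq_mul_inv]
  rw [e]
  refine mul_le_mul_of_nonneg_right ?_ hτpos.le
  exact mul_le_mul h4 hbp (by positivity) (by positivity)

end Pool.Agent.Lib.MP3c6092.LE
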