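import Pool.Agent.Lib.MP_3c6092_nt.LE.Spec

/-!
# Module FIB: few smaller bases in a dyadic block, for given exponents
-/

set_option autoImplicit false

namespace Pool.Agent.Lib.MP3c6092.LE

open Finset Pool.Agent.Lib.MP3c6092

namespace FIBM

theorem ei_lt {d : ℕ} (v : Fin (d * d)) : ei d v < d := (finProdFinEquiv.symm v).1.2

theorem ej_lt {d : ℕ} (v : Fin (d * d)) : ej d v < d := (finProdFinEquiv.symm v).2.2

theorem eij_inj {d : ℕ} {v w : Fin (d * d)} (h1 : ei d v = ei d w) (h2 : ej d v = ej d w) : v = w := by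
  apply finProdFinEquiv.symm.injective
  apply Prod.ext
  · exact Fin.ext h1
  · exact Fin.ext h2

/-- different exponents have distance at least `1 / m` -/
theorem expo_gap {m n d : ℕ} (hmn : Nat.Coprime m n) (hd : d ≤ m) (hm : 1 ≤ m) {p q : Fin (d * d)}
    (hpq : p ≠ q) : 1 / (m : ℝ) ≤ |((ei d p : ℝ) + (n : ℝ) / m * ej d p) -
      ((ei d q : ℝ) + (n : ℝ) / m * ej d q)| := by
  have hm0 : (0 : ℝ) < m := by exact_mod_cast hm
  set z : ℤ := (m : ℤ) * ((ei d p : ℤ) - ei d q) + n * ((ej d p : ℤ) - ej d q) with hz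
  have hz0 : z ≠ 0 := by
    intro h0
    have h1 : (m : ℤ) ∣ n * ((ej d p : ℤ) - ej d q) := by
      refine ⟨-((ei d p : ℤ) - ei d q), ?_⟩
      linarith
    have hcop : IsCoprime (m : ℤ) (n : ℤ) := Nat.isCoprime_iff_coprime.mpr hmn
    have h2 : (m : ℤ) ∣ ((ej d p : ℤ) - ej d q) := hcop.dvd_of_dvd_mul_left h1
    have h3 : ((ej d p : ℤ) - ej d q) = 0 := by
      apply Int.eq_zero_of_abs_lt_dvd h2
      have := ej_lt p
      have := ej_lt q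
      rw [abs_lt]
      constructor <;> omega
    have h4 : (m : ℤ) * ((ei d p : ℤ) - ei d q) = 0 := by
      rw [h3, mul_zero, add_zero] at hz
      rw [← hz]; exact h0
    have h5 : ((ei d p : ℤ) - ei d q) = 0 := by
      rcases mul_eq_zero.1 h4 with h | h
      · omega
      · exact h
    exact hpq (eij_inj (by omega) (by omega))
  have h1 : ((ei d p : ℝ) + (n : ℝ) / m * ej d p) - ((ei d q : ℝ) + (n : ℝ) / m * ej d q) =
      (z : ℝ) / m := by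
    rw [hz]; push_cast; field_simp; ring
  rw [h1, abs_div, abs_of_pos hm0]
  apply div_le_div_of_nonneg_right _ hm0.le
  have h2 : (1 : ℤ) ≤ |z| := Int.one_le_abs hz0
  exact_mod_cast h2

/-- the exponents are small -/
theorem expo_le {m n d s : ℕ} (hm : 1 ≤ m) (hn : n ≤ s * m) (p : Fin (d * d)) :
    0 ≤ (ei d p : ℝ) + (n : ℝ) / m * ej d p ∧
      (ei d p : ℝ) + (n : ℝ) / m * ej d p ≤ (d : ℝ) * (1 + s) := by
  have hm0 : (0 : ℝ) < m := by exact_mod_cast hm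
  have h1 : (n : ℝ) / m ≤ s := by
    rw [div_le_iff₀ hm0]
    exact_mod_cast hn
  have h2 : (0 : ℝ) ≤ (n : ℝ) / m := by positivity
  have h3 : (ei d p : ℝ) ≤ d := by exact_mod_cast (ei_lt p).le
  have h4 : (ej d p : ℝ) ≤ d := by exact_mod_cast (ej_lt p).le
  have h5 : (0 : ℝ) ≤ ej d p := Nat.cast_nonneg _
  constructor
  · positivity
  · have h6 : (n : ℝ) / m * ej d p ≤ s * d := mul_le_mul h1 h4 h5 (Nat.cast_nonneg _)
    linarith

/-- constants -/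
structure Cst (s K d K0 E P L0 : ℕ) : Prop where
  hd : d = 8 * s * (s + 1)
  hK0 : K0 = (d * d / 2) * (d * d / 2)
  hE : K0 = s * E
  hP : P = d * (1 + s)
  hEP : P * (d * d) + 1 ≤ E
  hL0 : L0 = K0 + P + 2 * (d * d) + 2

theorem exists_cst (s K : ℕ) (hs : 1 ≤ s) : ∃ d K0 E P L0 : ℕ, 1 ≤ d ∧ Cst s K d K0 E P L0 := by
  have h0 : 8 * s * (s + 1) * (8 * s * (s + 1)) / 2 = 32 * s ^ 2 * (s + 1) ^ 2 := by
    have : 8 * s * (s + 1) * (8 * s * (s + 1)) = 2 * (32 * s ^ 2 * (s + 1) ^ 2) := by ring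
    rw [this, Nat.mul_div_cancel_left _ (by norm_num)]
  refine ⟨8 * s * (s + 1), _, 1024 * s ^ 3 * (s + 1) ^ 4, _, _, ?_, ⟨rfl, rfl, ?_, rfl, ?_, rfl⟩⟩
  · have : 1 ≤ s * (s + 1) := Nat.mul_pos hs (Nat.succ_pos _)
    nlinarith
  · rw [h0]; ring
  · have h1 : 8 * s * (s + 1) * (1 + s) * (8 * s * (s + 1) * (8 * s * (s + 1))) =
        512 * (s ^ 3 * (s + 1) ^ 4) := by ring
    have h2 : 1024 * s ^ 3 * (s + 1) ^ 4 = 1024 * (s ^ 3 * (s + 1) ^ 4) := by ring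
    rw [h1, h2]
    have h3 : 1 ≤ s ^ 3 * (s + 1) ^ 4 := Nat.mul_pos (Nat.pow_pos hs) (Nat.pow_pos (Nat.succ_pos _))
    omega

/-- `2 ℓ / X` -/
theorem ell {s E K0 : ℕ} (hs : 1 ≤ s) (hE : K0 = s * E) {X : ℝ} (hX : 1 ≤ X) :
    (2 * X ^ (1 - 1 / (s : ℝ)) / X) ^ K0 = 2 ^ K0 / X ^ E := by
  have hX0 : 0 < X := by linarith
  have hs0 : (s : ℝ) ≠ 0 := by
    have : s ≠ 0 := by omega
    exact_mod_cast this
  have h1 : X ^ (1 - 1 / (s : ℝ)) / X = X ^ (-(1 / (s : ℝ))) := by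
    rw [div_eq_iff hX0.ne']
    nth_rewrite 3 [← Real.rpow_one X]
    rw [← Real.rpow_add hX0]
    congr 1; ring
  rw [mul_div_assoc, h1, mul_pow, ← Real.rpow_natCast (X ^ (-(1 / (s : ℝ)))) K0, ← Real.rpow_mul hX0.le]
  have h2 : -(1 / (s : ℝ)) * (K0 : ℝ) = -(E : ℝ) := by
    rw [hE]; push_cast; field_simp
  rw [h2, Real.rpow_neg hX0.le, Real.rpow_natCast, div_eq_mul_inv]

/-- the determinant bound is less than one -/
theorem numer3 {s K d K0 E P L0 : ℕ} (h : Cst s K d K0 E P L0) (hs : 1 ≤ s) {X : ℝ} (hX : 1 ≤ X)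
    (hC : ((d * d).factorial : ℝ) * (((K0 : ℝ) + 1) * (3 * 3 ^ P)) ^ (d * d) * 2 ^ K0 < X) :
    ((d * d).factorial : ℝ) * (((K0 : ℝ) + 1) * (3 * (3 * X) ^ P)) ^ (d * d) *
      (2 * X ^ (1 - 1 / (s : ℝ)) / X) ^ K0 < 1 := by
  have hX0 : 0 < X := by linarith
  rw [ell hs h.hE hX]
  have h1 : (((K0 : ℝ) + 1) * (3 * (3 * X) ^ P)) ^ (d * d) =
      (((K0 : ℝ) + 1) * (3 * 3 ^ P)) ^ (d * d) * X ^ (P * (d * d)) := by
    rw [mul_pow 3 X P, ← mul_assoc 3 ((3 : ℝ) ^ P), ← mul_assoc ((K0 : ℝ) + 1), mul_pow _ (X ^ P), ← pow_mul]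
  rw [h1]
  have h2 : X ^ (P * (d * d)) * X ≤ X ^ E := by
    rw [← pow_succ]
    exact pow_le_pow_right₀ hX h.hEP
  have hXE : 0 < X ^ E := pow_pos hX0 _
  rw [← mul_div_assoc, div_lt_one hXE]
  have h3 : 0 < X ^ (P * (d * d)) := pow_pos hX0 _
  calc ((d * d).factorial : ℝ) * ((((K0 : ℝ) + 1) * (3 * 3 ^ P)) ^ (d * d) * X ^ (P * (d * d))) * 2 ^ K0
      = (((d * d).factorial : ℝ) * (((K0 : ℝ) + 1) * (3 * 3 ^ P)) ^ (d * d) * 2 ^ K0) *
          X ^ (P * (d * d)) := by ring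
    _ < X * X ^ (P * (d * d)) := mul_lt_mul_of_pos_right hC h3
    _ = X ^ (P * (d * d)) * X := mul_comm _ _
    _ ≤ X ^ E := h2

/-- the error is small enough for the determinant -/
theorem numer2 {s K d K0 E P L0 : ℕ} (h : Cst s K d K0 E P L0) (hs : 1 ≤ s) {X T : ℝ} (hX : 1 ≤ X)
    (h4 : (4 : ℝ) ^ d ≤ X) (hT : X ^ L0 ≤ T) :
    4 ^ d * (2 * X) ^ P / T ≤ (3 * X) ^ P * (2 * X ^ (1 - 1 / (s : ℝ)) / X) ^ K0 := by
  have hX0 : 0 < X := by linarith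
  have hT0 : 0 < T := lt_of_lt_of_le (pow_pos hX0 _) hT
  rw [ell hs h.hE hX]
  have hXE : 0 < X ^ E := pow_pos hX0 _
  have h1 : (2 * X) ^ P ≤ (3 * X) ^ P := pow_le_pow_left₀ (by linarith) (by linarith) _
  have hEK : E ≤ K0 := by
    rw [h.hE]; exact Nat.le_mul_of_pos_left _ hs
  have h2 : 4 ^ d * X ^ E ≤ T := by
    calc 4 ^ d * X ^ E ≤ X * X ^ E := mul_le_mul_of_nonneg_right h4 hXE.le
      _ = X ^ (E + 1) := (pow_succ' X E).symm
      _ ≤ X ^ L0 := pow_le_pow_right₀ hX (by rw [h.hL0]; omega)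
      _ ≤ T := hT
  have h3 : 4 ^ d / T ≤ 2 ^ K0 / X ^ E := by
    rw [div_le_div_iff₀ hT0 hXE]
    have : (1 : ℝ) ≤ 2 ^ K0 := one_le_pow₀ (by norm_num)
    nlinarith
  calc 4 ^ d * (2 * X) ^ P / T = (2 * X) ^ P * (4 ^ d / T) := by ring
    _ ≤ (3 * X) ^ P * (2 ^ K0 / X ^ E) := mul_le_mul h1 h3 (by positivity) (by positivity)

/-- the final contradiction -/
theorem numer4 {s K d K0 E P L0 : ℕ} (h : Cst s K d K0 E P L0) {X T m B : ℝ} (hX : 1 ≤ X)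
    (hB : 0 ≤ B) (hm0 : 0 ≤ m) (hm : m ≤ 2 * X) (hT : X ^ L0 ≤ T)
    (hC : ((d * d : ℕ) : ℝ) * 4 ^ d * 2 ^ P * (B * 2) ^ (d * d - 1) < X) :
    ((d * d : ℕ) : ℝ) * (4 ^ d * (2 * X) ^ P / T) * (B * X) ^ (d * d - 1) * m ^ (d * d - 1) < 1 := by
  have hX0 : 0 < X := by linarith
  have hT0 : 0 < T := lt_of_lt_of_le (pow_pos hX0 _) hT
  have e1 : ((d * d : ℕ) : ℝ) * (4 ^ d * (2 * X) ^ P / T) * (B * X) ^ (d * d - 1) * m ^ (d * d - 1) =
      (((d * d : ℕ) : ℝ) * 4 ^ d * (2 * X) ^ P * (B * X) ^ (d * d - 1) * m ^ (d * d - 1)) / T := by ring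
  rw [e1, div_lt_one hT0]
  have h1 : m ^ (d * d - 1) ≤ (2 * X) ^ (d * d - 1) := pow_le_pow_left₀ hm0 hm _
  calc ((d * d : ℕ) : ℝ) * 4 ^ d * (2 * X) ^ P * (B * X) ^ (d * d - 1) * m ^ (d * d - 1)
      ≤ ((d * d : ℕ) : ℝ) * 4 ^ d * (2 * X) ^ P * (B * X) ^ (d * d - 1) * (2 * X) ^ (d * d - 1) :=
        mul_le_mul_of_nonneg_left h1 (by positivity)
    _ = (((d * d : ℕ) : ℝ) * 4 ^ d * 2 ^ P * (B * 2) ^ (d * d - 1)) *
          (X ^ P * X ^ (d * d - 1) * X ^ (d * d - 1)) := by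
        rw [mul_pow 2 X P, mul_pow B X, mul_pow 2 X, mul_pow B 2]; ring
    _ < X * (X ^ P * X ^ (d * d - 1) * X ^ (d * d - 1)) := mul_lt_mul_of_pos_right hC (by positivity)
    _ = X ^ (1 + P + (d * d - 1) + (d * d - 1)) := by rw [pow_add, pow_add, pow_add, pow_one]; ring
    _ ≤ X ^ L0 := pow_le_pow_right₀ hX (by rw [h.hL0]; omega)
    _ ≤ T := hT

/-- the determinants of the points vanish -/
theorem det_zero (hUPD : SpecUPD) {s K d K0 E P L0 : ℕ} (h : Cst s K d K0 E P L0) (hs : 1 ≤ s) (hd : 1 ≤ d)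
    {X T θ : ℝ} (hX : 1 ≤ X) (h4 : (4 : ℝ) ^ d ≤ X) (h4s : (4 : ℝ) ^ s ≤ X) (hT : X ^ L0 ≤ T)
    (hC : ((d * d).factorial : ℝ) * (((K0 : ℝ) + 1) * (3 * 3 ^ P)) ^ (d * d) * 2 ^ K0 < X)
    (hθ0 : 0 ≤ θ) (hθs : θ ≤ s) (b a : Fin (d * d) → ℕ) (hb : ∀ u, X ≤ b u ∧ (b u : ℝ) ≤ 2 * X)
    (hbb : ∀ u w, (b u : ℝ) - b w ≤ X ^ (1 - 1 / (s : ℝ)))
    (herr : ∀ u v, |(b u : ℝ) ^ ei d v * (a u : ℝ) ^ ej d v -
      (b u : ℝ) ^ ((ei d v : ℝ) + θ * ej d v)| ≤ 4 ^ d * (2 * X) ^ P / T) :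
    (Matrix.of fun u v : Fin (d * d) => (b u : ℝ) ^ ei d v * (a u : ℝ) ^ ej d v).det = 0 := by
  have hX0 : 0 < X := by linarith
  have hs0 : (0 : ℝ) < s := by exact_mod_cast hs
  have hdd : 0 < d * d := Nat.mul_pos hd hd
  set u₀ : Fin (d * d) := ⟨0, hdd⟩ with hu₀
  have hℓ0 : 0 < X ^ (1 - 1 / (s : ℝ)) := Real.rpow_pos_of_pos hX0 _
  have h4ℓ : 4 * X ^ (1 - 1 / (s : ℝ)) ≤ X := by
    have h1 : X ^ (1 - 1 / (s : ℝ)) * X ^ (1 / (s : ℝ)) = X := by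
      rw [← Real.rpow_add hX0]
      have : (1 : ℝ) - 1 / s + 1 / s = 1 := by ring
      rw [this, Real.rpow_one]
    have h2 : 4 ≤ X ^ (1 / (s : ℝ)) := by
      have h3 : ((4 : ℝ) ^ s) ^ (1 / (s : ℝ)) ≤ X ^ (1 / (s : ℝ)) :=
        Real.rpow_le_rpow (by positivity) h4s (by positivity)
      have h5 : ((4 : ℝ) ^ s) ^ (1 / (s : ℝ)) = 4 := by
        rw [← Real.rpow_natCast, ← Real.rpow_mul (by norm_num), mul_one_div_cancel hs0.ne', Real.rpow_one]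
      rw [h5] at h3
      exact h3
    calc 4 * X ^ (1 - 1 / (s : ℝ)) = X ^ (1 - 1 / (s : ℝ)) * 4 := mul_comm _ _
      _ ≤ X ^ (1 - 1 / (s : ℝ)) * X ^ (1 / (s : ℝ)) := mul_le_mul_of_nonneg_left h2 hℓ0.le
      _ = X := h1
  have hPr : ∀ Z : ℝ, Z ^ ((d : ℝ) * (1 + (s : ℝ))) = Z ^ P := by
    intro Z
    rw [← Real.rpow_natCast Z P, h.hP]
    push_cast
    rfl
  have hU := hUPD d θ s X (X ^ (1 - 1 / (s : ℝ))) (b u₀) b a hθ0 hθs hX hℓ0 h4ℓ (hb u₀).1 (hb u₀).2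
    (fun u => abs_le.mpr ⟨by linarith [hbb u₀ u], hbb u u₀⟩)
    (fun u v => by
      rw [hPr, ← h.hK0]
      exact (herr u v).trans (numer2 h hs hX h4 hT))
  rw [hPr, ← h.hK0] at hU
  have h5 := numer3 h hs hX hC
  have h6 : ((K0 : ℕ) : ℝ) = (K0 : ℝ) := rfl
  have hlt := lt_of_le_of_lt hU h5
  set A : Matrix (Fin (d * d)) (Fin (d * d)) ℤ := Matrix.of fun u v =>
    (b u : ℤ) ^ ei d v * (a u : ℤ) ^ ej d v with hA
  have hAR : (Matrix.of fun u v : Fin (d * d) => (b u : ℝ) ^ ei d v * (a u : ℝ) ^ ej d v)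
      = A.map (Int.cast : ℤ → ℝ) := by
    ext i j
    simp only [hA, Matrix.of_apply, Matrix.map_apply]
    push_cast
    rfl
  have hdetR : ((A.det : ℤ) : ℝ) = (A.map (Int.cast : ℤ → ℝ)).det := by
    have := (Int.castRingHom ℝ).map_det A
    simpa using this
  rw [hAR, ← hdetR] at hlt ⊢
  rw [← Int.cast_abs] at hlt
  have h7 : |A.det| < 1 := by exact_mod_cast hlt
  have h8 : A.det = 0 := Int.abs_lt_one_iff.mp h7
  rw [h8, Int.cast_zero]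

/-- few points in a short interval -/
theorem short (hLBD : SpecLBD) (hUPD : SpecUPD) {s K d K0 E P L0 : ℕ} (h : Cst s K d K0 E P L0)
    (hs : 1 ≤ s) (hd : 1 ≤ d) {m n : ℕ} (hmn : Nat.Coprime m n) (hdm : d ≤ m) (hm : 1 ≤ m) (hn : n ≤ s * m)
    {X T : ℝ} (hX : 1 ≤ X) (h4 : (4 : ℝ) ^ d ≤ X) (h4s : (4 : ℝ) ^ s ≤ X) (hT : X ^ L0 ≤ T)
    (hm2 : (m : ℝ) ≤ 2 * X)
    (hC : ((d * d).factorial : ℝ) * (((K0 : ℝ) + 1) * (3 * 3 ^ P)) ^ (d * d) * 2 ^ K0 < X)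
    (hC4 : ((d * d : ℕ) : ℝ) * 4 ^ d * 2 ^ P * ((2 : ℝ) ^ ((P : ℝ) + 1 + 2) * 2) ^ (d * d - 1) < X)
    (G : Finset ℕ) (hG : ∀ b ∈ G, X ≤ b ∧ (b : ℝ) ≤ 2 * X) (α : ℕ → ℕ)
    (hbb : ∀ b ∈ G, ∀ c ∈ G, (b : ℝ) - c ≤ X ^ (1 - 1 / (s : ℝ)))
    (herr : ∀ b ∈ G, ∀ v : Fin (d * d), |(b : ℝ) ^ ei d v * (α b : ℝ) ^ ej d v -
      (b : ℝ) ^ ((ei d v : ℝ) + (n : ℝ) / m * ej d v)| ≤ 4 ^ d * (2 * X) ^ P / T) :
    G.card ≤ 2 ^ (d * d) := by
  classical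
  have hX0 : 0 < X := by linarith
  have hT0 : 0 < T := lt_of_lt_of_le (pow_pos hX0 _) hT
  have hm0 : (0 : ℝ) < m := by exact_mod_cast hm
  have hdd : 0 < d * d := Nat.mul_pos hd hd
  by_contra hcon
  push Not at hcon
  have hcard : 2 ^ (d * d - 1) ≤ G.card :=
    (Nat.pow_le_pow_right (by norm_num) (Nat.sub_le _ _)).trans hcon.le
  have hθ0 : (0 : ℝ) ≤ (n : ℝ) / m := by positivity
  have hθs : (n : ℝ) / m ≤ s := by
    rw [div_le_iff₀ hm0]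
    exact_mod_cast hn
  -- a relation
  obtain ⟨c, hc, hc0⟩ : ∃ c : Fin (d * d) → ℝ,
      (∀ b : {b // b ∈ G}, ∑ v, c v * ((b.1 : ℝ) ^ ei d v * (α b.1 : ℝ) ^ ej d v) = 0) ∧ c ≠ 0 := by
    by_contra hno
    push Not at hno
    obtain ⟨e, he⟩ := exists_minor
      (fun (b : {b // b ∈ G}) (v : Fin (d * d)) => (b.1 : ℝ) ^ ei d v * (α b.1 : ℝ) ^ ej d v) hno
    exact he (det_zero hUPD h hs hd hX h4 h4s hT hC hθ0 hθs (fun u => (e u).1) (fun u => α (e u).1)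
      (fun u => hG _ (e u).2) (fun u w => hbb _ (e u).2 _ (e w).2) (fun u v => herr _ (e u).2 v))
  obtain ⟨q0, _, hq0⟩ := Finset.exists_max_image (univ : Finset (Fin (d * d))) (fun v => |c v|)
    ⟨⟨0, hdd⟩, mem_univ _⟩
  have hcq : 0 < |c q0| := by
    obtain ⟨v, hv⟩ : ∃ v, c v ≠ 0 := by
      by_contra hno
      push Not at hno
      exact hc0 (funext hno)
    exact lt_of_lt_of_le (abs_pos.mpr hv) (hq0 v (mem_univ _))
  -- the enumeration of G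
  set emb := G.orderEmbOfFin rfl with hemb
  set x : ℕ → ℝ := fun k => if hk : k < G.card then ((emb ⟨k, hk⟩ : ℕ) : ℝ) else 0 with hx
  have hxk : ∀ k (hk : k < G.card), x k = ((emb ⟨k, hk⟩ : ℕ) : ℝ) := by
    intro k hk
    simp only [hx]
    rw [dif_pos hk]
  set δ : ℝ := 4 ^ d * (2 * X) ^ P / T with hδ
  have hδ0 : 0 ≤ δ := by positivity
  have hS : (univ : Finset (Fin (d * d))).card = d * d := by rw [card_univ, Fintype.card_fin]
  have hPr : ((d : ℝ) * (1 + (s : ℝ))) = (P : ℝ) := by rw [h.hP]; push_cast; ring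
  obtain ⟨y, hy1, hy2, hy3⟩ := hLBD (Fin (d * d)) univ
    (fun v => (ei d v : ℝ) + (n : ℝ) / m * ej d v) c q0 ((P : ℝ) + 1) X (|c q0| * (((d * d : ℕ) : ℝ) * δ)) x
    (mem_univ _) hX (by positivity)
    (by
      intro p _
      have h1 := expo_le (d := d) hm hn p
      rw [hPr] at h1
      rw [abs_of_nonneg h1.1]
      linarith)
    (by
      intro p _ q _
      have h1 := expo_le (d := d) hm hn p
      have h2 := expo_le (d := d) hm hn q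
      rw [hPr] at h1 h2
      have h3 : |((ei d p : ℝ) + (n : ℝ) / m * ej d p) - ((ei d q : ℝ) + (n : ℝ) / m * ej d q)| ≤ P := by
        rw [abs_le]
        constructor <;> linarith [h1.1, h1.2, h2.1, h2.2]
      linarith)
    (by
      rw [hS]
      intro k hk
      have hk' : k < G.card := lt_of_lt_of_le hk hcard
      rw [hxk k hk']
      exact hG _ (G.orderEmbOfFin_mem rfl _))
    (by
      rw [hS]
      intro k hk
      have hk1 : k + 1 < G.card := lt_of_lt_of_le hk hcard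
      have hk' : k < G.card := by omega
      rw [hxk k hk', hxk (k + 1) hk1]
      have h1 : emb ⟨k, hk'⟩ < emb ⟨k + 1, hk1⟩ := by
        apply (OrderEmbedding.lt_iff_lt _).mpr
        exact Nat.lt_succ_self k
      exact_mod_cast h1)
    (by
      rw [hS]
      intro k hk
      have hk' : k < G.card := lt_of_lt_of_le hk hcard
      rw [hxk k hk']
      set b : ℕ := emb ⟨k, hk'⟩ with hb
      have hbG : b ∈ G := G.orderEmbOfFin_mem rfl _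
      have h1 := hc ⟨b, hbG⟩
      simp only at h1
      have h2 : ∑ v, c v * (b : ℝ) ^ ((ei d v : ℝ) + (n : ℝ) / m * ej d v) =
          -∑ v, c v * ((b : ℝ) ^ ei d v * (α b : ℝ) ^ ej d v -
            (b : ℝ) ^ ((ei d v : ℝ) + (n : ℝ) / m * ej d v)) := by
        simp only [mul_sub, sum_sub_distrib]
        rw [h1]
        ring
      rw [h2, abs_neg]
      calc |∑ v, c v * ((b : ℝ) ^ ei d v * (α b : ℝ) ^ ej d v -
            (b : ℝ) ^ ((ei d v : ℝ) + (n : ℝ) / m * ej d v))|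
          ≤ ∑ v, |c v * ((b : ℝ) ^ ei d v * (α b : ℝ) ^ ej d v -
            (b : ℝ) ^ ((ei d v : ℝ) + (n : ℝ) / m * ej d v))| := abs_sum_le_sum_abs _ _
        _ ≤ ∑ _v : Fin (d * d), |c q0| * δ := by
            apply sum_le_sum
            intro v _
            rw [abs_mul]
            exact mul_le_mul (hq0 v (mem_univ _)) (herr b hbG v) (abs_nonneg _) hcq.le
        _ = |c q0| * (((d * d : ℕ) : ℝ) * δ) := by
            rw [sum_const, hS, nsmul_eq_mul]; ring)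
  rw [hS] at hy3
  -- conclusion
  have hy0 : 1 ≤ y := hX.trans hy1
  have h1 : (1 : ℝ) ≤ y ^ ((ei d q0 : ℝ) + (n : ℝ) / m * ej d q0) :=
    Real.one_le_rpow hy0 (expo_le (d := d) hm hn q0).1
  have h2 : (1 / (m : ℝ)) ^ (d * d - 1) ≤ ∏ p ∈ univ.erase q0,
      |((ei d q0 : ℝ) + (n : ℝ) / m * ej d q0) - ((ei d p : ℝ) + (n : ℝ) / m * ej d p)| := by
    have h3 : (univ.erase q0).card = d * d - 1 := by rw [card_erase_of_mem (mem_univ _), hS]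
    rw [← h3, ← prod_const]
    apply prod_le_prod
    · intro _ _; positivity
    · intro p hp
      exact expo_gap hmn hdm hm (ne_of_mem_erase hp).symm
  have h3 : |c q0| * (1 / (m : ℝ)) ^ (d * d - 1) ≤
      |c q0| * (((d * d : ℕ) : ℝ) * δ) * ((2 : ℝ) ^ ((P : ℝ) + 1 + 2) * X) ^ (d * d - 1) := by
    refine le_trans ?_ hy3
    have h4 : |c q0| ≤ |c q0| * y ^ ((ei d q0 : ℝ) + (n : ℝ) / m * ej d q0) :=
      le_mul_of_one_le_right hcq.le h1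
    exact mul_le_mul h4 h2 (by positivity) (by positivity)
  rw [mul_assoc] at h3
  have h5 := le_of_mul_le_mul_left h3 hcq
  have h6 : (1 : ℝ) ≤ ((d * d : ℕ) : ℝ) * δ * ((2 : ℝ) ^ ((P : ℝ) + 1 + 2) * X) ^ (d * d - 1) *
      (m : ℝ) ^ (d * d - 1) := by
    have h7 : (1 / (m : ℝ)) ^ (d * d - 1) * (m : ℝ) ^ (d * d - 1) = 1 := by
      rw [← mul_pow, one_div_mul_cancel hm0.ne', one_pow]
    calc (1 : ℝ) = (1 / (m : ℝ)) ^ (d * d - 1) * (m : ℝ) ^ (d * d - 1) := h7.symm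
      _ ≤ _ := mul_le_mul_of_nonneg_right h5 (by positivity)
  exact absurd (numer4 h hX (by positivity) hm0.le hm2 hT hC4) (not_lt.mpr h6)

end FIBM

open FIBM in
theorem specFIB (hLBD : SpecLBD) (hUPD : SpecUPD) (hERR : SpecERR) : SpecFIB := by
  intro s K hs hK
  obtain ⟨d, K0, E, P, L0, hd, h⟩ := exists_cst s K hs
  obtain ⟨C3, hC3⟩ := exists_nat_gt
    (((d * d).factorial : ℝ) * (((K0 : ℝ) + 1) * (3 * 3 ^ P)) ^ (d * d) * 2 ^ K0)
  obtain ⟨C4, hC4⟩ := exists_nat_gt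
    (((d * d : ℕ) : ℝ) * 4 ^ d * 2 ^ P * ((2 : ℝ) ^ ((P : ℝ) + 1 + 2) * 2) ^ (d * d - 1))
  refine ⟨2 ^ (d * d), K * L0 + d, 4 ^ s + 4 ^ d + C3 + C4 + 2, ?_⟩
  intro m n X F hmn hM hn hX₀ hm2 hF hF2
  have hXr : (4 : ℝ) ^ s + 4 ^ d + C3 + C4 + 2 ≤ X := by exact_mod_cast hX₀
  have p1 : (0 : ℝ) < 4 ^ s := by positivity
  have p2 : (0 : ℝ) < 4 ^ d := by positivity
  have p3 : (0 : ℝ) ≤ C3 := Nat.cast_nonneg _
  have p4 : (0 : ℝ) ≤ C4 := Nat.cast_nonneg _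
  have hX1 : 1 ≤ X := by linarith
  have hX0 : 0 < X := by linarith
  have hdm : d ≤ m := by omega
  have hm : 1 ≤ m := by omega
  have hm0 : (0 : ℝ) < m := by exact_mod_cast hm
  have hK0 : (0 : ℝ) < K := by exact_mod_cast hK
  have hs0 : (0 : ℝ) < s := by exact_mod_cast hs
  have hT : X ^ L0 ≤ X ^ ((m : ℝ) / K) := by
    rw [← Real.rpow_natCast]
    apply Real.rpow_le_rpow_of_exponent_le hX1
    rw [le_div_iff₀ hK0]
    have : K * L0 ≤ m := by omega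
    have h1 : ((K * L0 : ℕ) : ℝ) ≤ m := by exact_mod_cast this
    push_cast at h1
    linarith
  have hT2 : 2 ≤ X ^ ((m : ℝ) / K) := by
    have h1 : X ≤ X ^ L0 := by
      have : 1 ≤ L0 := by rw [h.hL0]; omega
      calc X = X ^ 1 := (pow_one X).symm
        _ ≤ X ^ L0 := pow_le_pow_right₀ hX1 this
    linarith
  have hns : (n : ℝ) ≤ (s : ℝ) * m := by exact_mod_cast hn
  have hPr : ((2 * X) ^ ((d : ℝ) * (1 + (s : ℝ))) : ℝ) = (2 * X) ^ P := by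
    rw [← Real.rpow_natCast (2 * X) P, h.hP]
    push_cast
    rfl
  classical
  choose! α hα using hF2
  have hint := interval_count F (X := X) (ℓ := X ^ (1 - 1 / (s : ℝ))) (Real.rpow_pos_of_pos hX0 _) hX0.le
    (2 ^ (d * d)) hF (by
      intro G hG hGG
      refine short hLBD hUPD h hs hd hmn hdm hm hn hX1 (by linarith) (by linarith) hT hm2
        (by linarith) (by linarith) G (fun b hb => hF b (hG hb)) α hGG ?_
      intro b hb v
      have h1 := hERR K (α b) b m n d (ei d v) (ej d v) s X hK (hα b (hG hb)).2 hm (hα b (hG hb)).1 hX1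
        (hF b (hG hb)).1 (hF b (hG hb)).2 hns hT2 (ei_lt v) (ej_lt v)
      rw [hPr] at h1
      exact h1)
  have hq : X / X ^ (1 - 1 / (s : ℝ)) = X ^ (1 / (s : ℝ)) := by
    rw [div_eq_iff (Real.rpow_pos_of_pos hX0 _).ne', ← Real.rpow_add hX0]
    have : (1 : ℝ) / s + (1 - 1 / s) = 1 := by ring
    rw [this, Real.rpow_one]
  rw [hq] at hint
  exact hint

end Pool.Agent.Lib.MP3c6092.LE
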