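import Pool.Agent.Lib.MP_3c6092_nt.LE.Quad

/-!
# MP_3c6092_nt: one large exponent, either of the two
-/

set_option autoImplicit false

namespace Pool.Agent.Lib.MP3c6092.LE

open Finset Pool.Agent.Lib.MP3c6092

namespace LEEM

/-- the solutions with `m < M₀`, `s M₀ ≤ n` -/
def SM (δ : ℝ) (M₀ s N : ℕ) : Set (ℕ × ℕ × ℕ × ℕ) :=
  {p : ℕ × ℕ × ℕ × ℕ | 1 ≤ p.2.1 ∧ p.2.1 < p.1 ∧ p.1 ≤ N ∧ 2 ≤ p.2.2.1 ∧ 1 ≤ p.2.2.2 ∧
    1 ≤ δ * p.2.2.1 ∧ p.2.2.1 < M₀ ∧ s * M₀ ≤ p.2.2.2 ∧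
    |(p.1 : ℝ) ^ p.2.2.1 - (p.2.1 : ℝ) ^ p.2.2.2| < (p.1 : ℝ) ^ ((1 - δ) * p.2.2.1)}

theorem close' {δ : ℝ} {a b m n : ℕ} (ha : 1 ≤ a) (hm : 1 ≤ m) (hδ : 1 ≤ δ * m)
    (h : |(a : ℝ) ^ m - (b : ℝ) ^ n| < (a : ℝ) ^ ((1 - δ) * m)) :
    |(a : ℝ) ^ m - (b : ℝ) ^ n| < (a : ℝ) ^ (m - 1) := by
  have ha1 : (1 : ℝ) ≤ a := by exact_mod_cast ha
  refine h.trans_le ?_
  rw [← Real.rpow_natCast (a : ℝ) (m - 1)]
  apply Real.rpow_le_rpow_of_exponent_le ha1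
  rw [Nat.cast_sub hm, Nat.cast_one]
  nlinarith

theorem SM_sub {δ : ℝ} {M₀ s N : ℕ} (_hs : 1 ≤ s) (_hN : 1 ≤ N) {x : ℝ}
    (hx : 1 ≤ x) (hxs : x ^ s = N) {p : ℕ × ℕ × ℕ × ℕ} (hp : p ∈ SM δ M₀ s N) :
    p.2.1 ≤ ⌊2 * x⌋₊ ∧ p.2.2.2 ≤ M₀ * (Nat.log 2 N + 1) + 1 := by
  obtain ⟨a, b, m, n⟩ := p
  obtain ⟨hb1, hba, haN, hm, hn, hδm, hmM, hnM, hlt⟩ := hp
  simp only at hb1 hba haN hm hn hδm hmM hnM hlt ⊢
  have ha2 : 2 ≤ a := by omega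
  have h0 := close' (by omega : 1 ≤ a) (by omega : 1 ≤ m) hδm hlt
  have h1 := b_le (by omega : 1 ≤ a) h0
  have h2 : b ^ n ≤ 2 * a ^ m := by exact_mod_cast h1
  have hb2 : 2 ≤ b := by
    by_contra hc
    have hb : b = 1 := by omega
    subst hb
    have h3 := (abs_lt.mp h0).2
    have har : (2 : ℝ) ≤ a := by exact_mod_cast ha2
    have h4 : (a : ℝ) ^ m = a * (a : ℝ) ^ (m - 1) := by rw [← pow_succ']; congr 1; omega
    have h5 : (1 : ℝ) ≤ (a : ℝ) ^ (m - 1) := one_le_pow₀ (by linarith)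
    rw [h4] at h3
    simp only [Nat.cast_one, one_pow] at h3
    nlinarith
  have haM : a ^ m ≤ N ^ m := Nat.pow_le_pow_left haN m
  refine ⟨?_, ?_⟩
  · refine Nat.le_floor ?_
    by_contra hc
    have hc' : 2 * x < (b : ℝ) := not_le.1 hc
    have h3 : (2 * x) ^ n < (b : ℝ) ^ n := pow_lt_pow_left₀ hc' (by linarith) (by omega)
    have h4 : (b : ℝ) ^ n ≤ 2 * (N : ℝ) ^ m := by
      have : b ^ n ≤ 2 * N ^ m := by omega
      exact_mod_cast this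
    have h5 : (N : ℝ) ^ m = x ^ (s * m) := by rw [← hxs, ← pow_mul]
    have h6 : x ^ (s * m) ≤ x ^ n := by
      apply pow_le_pow_right₀ hx
      exact (Nat.mul_le_mul_left s hmM.le).trans hnM
    have h7 : (2 : ℝ) ≤ 2 ^ n := by
      calc (2 : ℝ) = 2 ^ 1 := by norm_num
        _ ≤ 2 ^ n := pow_le_pow_right₀ (by norm_num) hn
    have h8 : (2 * x) ^ n = 2 ^ n * x ^ n := mul_pow 2 x n
    have h9 : 2 * x ^ n ≤ 2 ^ n * x ^ n := mul_le_mul_of_nonneg_right h7 (by positivity)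
    rw [h5] at h4
    linarith
  · have h3 : a < 2 ^ (Nat.log 2 N + 1) :=
      lt_of_le_of_lt haN (Nat.lt_pow_succ_log_self (by norm_num) N)
    have h4 : 2 ^ n ≤ b ^ n := Nat.pow_le_pow_left hb2 n
    have h5 : a ^ m < (2 ^ (Nat.log 2 N + 1)) ^ m := Nat.pow_lt_pow_left h3 (by omega)
    have h6 : 2 ^ n < 2 ^ ((Nat.log 2 N + 1) * m + 1) := by
      calc 2 ^ n ≤ 2 * a ^ m := h4.trans h2
        _ < 2 * (2 ^ (Nat.log 2 N + 1)) ^ m := by omega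
        _ = 2 ^ ((Nat.log 2 N + 1) * m + 1) := by rw [← pow_mul, pow_succ, mul_comm]
    have h7 := (Nat.pow_lt_pow_iff_right (by norm_num : 1 < 2)).mp h6
    have h8 : (Nat.log 2 N + 1) * m ≤ (Nat.log 2 N + 1) * M₀ := Nat.mul_le_mul_left _ hmM.le
    rw [mul_comm M₀]
    omega

theorem SM_finite (δ : ℝ) {M₀ s N : ℕ} (hs : 1 ≤ s) (hN : 1 ≤ N) {x : ℝ}
    (hx : 1 ≤ x) (hxs : x ^ s = N) : (SM δ M₀ s N).Finite := by
  refine (Finset.finite_toSet (Finset.range (N + 1) ×ˢ Finset.range (N + 1) ×ˢ Finset.range M₀ ×ˢ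
    Finset.range (M₀ * (Nat.log 2 N + 1) + 2))).subset ?_
  intro p hp
  have h1 := (SM_sub hs hN hx hxs hp).2
  obtain ⟨a, b, m, n⟩ := p
  obtain ⟨hb1, hba, haN, hm, hn, hδm, hmM, hnM, hlt⟩ := hp
  simp only at hb1 hba haN hm hn hδm hmM hnM hlt h1
  simp only [coe_product, Set.mem_prod, mem_coe, mem_range]
  omega

theorem SM_card (δ : ℝ) {M₀ s N : ℕ} (hs : 1 ≤ s) (hN : 1 ≤ N) {x : ℝ}
    (hx : 1 ≤ x) (hxs : x ^ s = N) :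
    (SM δ M₀ s N).ncard ≤ (⌊2 * x⌋₊ + 1) * (M₀ * (M₀ * (Nat.log 2 N + 1) + 2)) := by
  have h := Set.ncard_le_ncard_of_injOn (s := SM δ M₀ s N)
    (t := ↑(Finset.range (⌊2 * x⌋₊ + 1) ×ˢ Finset.range M₀ ×ˢ
      Finset.range (M₀ * (Nat.log 2 N + 1) + 2))) (fun p => p.2) ?_ ?_ (Finset.finite_toSet _)
  · rw [Set.ncard_coe_finset, Finset.card_product, Finset.card_product, Finset.card_range,
      Finset.card_range, Finset.card_range] at h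
    exact h
  · intro p hp
    have h1 := SM_sub hs hN hx hxs hp
    obtain ⟨a, b, m, n⟩ := p
    obtain ⟨hb1, hba, haN, hm, hn, hδm, hmM, hnM, hlt⟩ := hp
    simp only at hb1 hba haN hm hn hδm hmM hnM hlt h1
    simp only [coe_product, Set.mem_prod, mem_coe, mem_range]
    exact ⟨by omega, by omega, by omega⟩
  · rintro ⟨a, b, m, n⟩ ⟨hb1, hba, haN, hm, hn, hδm, hmM, hnM, hlt⟩ ⟨a', q⟩ hp' heq
    simp only at heq
    subst heq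
    obtain ⟨hb1', hba', haN', hm', hn', hδm', hmM', hnM', hlt'⟩ := hp'
    simp only at hb1 hba haN hm hn hδm hmM hnM hlt hb1' hba' haN' hlt'
    have h0 := close' (by omega : 1 ≤ a) (by omega : 1 ≤ m) hδm hlt
    have h0' := close' (by omega : 1 ≤ a') (by omega : 1 ≤ m) hδm hlt'
    have haa : a = a' := by
      rcases Nat.lt_trichotomy a a' with h | h | h
      · exact (unique_a hm (by omega) h h0 h0').elim
      · exact h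
      · exact (unique_a hm (by omega) h h0' h0).elim
    rw [haa]

end LEEM

open QUADM LEEM in
/-- finite set formulation, either exponent large -/
theorem both (hQ : SpecQUAD) : ∀ δ ε : ℝ, 0 < δ → 0 < ε → ∃ (M : ℕ) (C : ℝ), ∀ N : ℕ, 1 ≤ N →
    ∃ S : Finset (ℕ × ℕ × ℕ × ℕ), (S.card : ℝ) ≤ C * (N : ℝ) ^ ε ∧
      ∀ a b m n : ℕ, 1 ≤ b → b < a → a ≤ N → 2 ≤ m → 1 ≤ n → 1 ≤ δ * m → (M ≤ m ∨ M ≤ n) →
        a ^ m ≠ b ^ n → |(a : ℝ) ^ m - (b : ℝ) ^ n| < (a : ℝ) ^ ((1 - δ) * m) → (a, b, m, n) ∈ S := by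
  intro δ ε hδ hε
  obtain ⟨M₀, C₀, h0⟩ := hQ δ ε hδ hε
  obtain ⟨s, hsdef⟩ : ∃ s : ℕ, s = ⌈2 / ε⌉₊ := ⟨_, rfl⟩
  have hs : 1 ≤ s := by
    rw [hsdef]
    exact Nat.one_le_iff_ne_zero.2 (Nat.ceil_pos.2 (by positivity)).ne'
  have hs0 : (0 : ℝ) < s := by exact_mod_cast hs
  have hsε : 2 / (s : ℝ) ≤ ε := by
    have h1 : 2 / ε ≤ s := by rw [hsdef]; exact Nat.le_ceil _
    rw [div_le_iff₀ hε] at h1
    rw [div_le_iff₀ hs0]
    linarith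
  refine ⟨M₀ + s * M₀, C₀ + 3 * (M₀ * (M₀ + 2)) * (2 * s + 1), ?_⟩
  intro N hN
  obtain ⟨h1, h2⟩ := h0 N hN
  change (QS δ M₀ N).Finite at h1
  change ((QS δ M₀ N).ncard : ℝ) ≤ _ at h2
  have hN1 : (1 : ℝ) ≤ N := by exact_mod_cast hN
  obtain ⟨x, hx⟩ : ∃ x : ℝ, x = (N : ℝ) ^ (1 / (s : ℝ)) := ⟨_, rfl⟩
  have hx1 : 1 ≤ x := by rw [hx]; exact Real.one_le_rpow hN1 (by positivity)
  have hxs : x ^ s = N := by
    rw [hx, ← Real.rpow_natCast, ← Real.rpow_mul (by linarith), one_div_mul_cancel hs0.ne',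
      Real.rpow_one]
  have hfin := SM_finite (M₀ := M₀) δ hs hN hx1 hxs
  have hcard := SM_card (M₀ := M₀) δ hs hN hx1 hxs
  have hU : (QS δ M₀ N ∪ SM δ M₀ s N).Finite := h1.union hfin
  refine ⟨hU.toFinset, ?_, ?_⟩
  · rw [← Set.ncard_eq_toFinset_card _ hU]
    have h3 : ((QS δ M₀ N ∪ SM δ M₀ s N).ncard : ℝ) ≤ (QS δ M₀ N).ncard + (SM δ M₀ s N).ncard := by
      exact_mod_cast Set.ncard_union_le _ _
    obtain ⟨L, hL⟩ : ∃ L : ℕ, L = Nat.log 2 N + 1 := ⟨_, rfl⟩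
    have hlog := TOTM.log_bound hs hN
    rw [← hx, ← hL] at hlog
    rw [← hL] at hcard
    have hL1 : (1 : ℝ) ≤ L := by exact_mod_cast (by omega : 1 ≤ L)
    have h4 : ((SM δ M₀ s N).ncard : ℝ) ≤ ((⌊2 * x⌋₊ : ℝ) + 1) * (M₀ * (M₀ * L + 2)) := by
      exact_mod_cast hcard
    have h5 : (⌊2 * x⌋₊ : ℝ) ≤ 2 * x := Nat.floor_le (by linarith)
    have hM0 : (0 : ℝ) ≤ M₀ := Nat.cast_nonneg _
    have h6 : ((⌊2 * x⌋₊ : ℝ) + 1) * (M₀ * (M₀ * L + 2)) ≤ (3 * x) * (M₀ * ((M₀ + 2) * L)) := by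
      apply mul_le_mul (by linarith) _ (by positivity) (by positivity)
      apply mul_le_mul_of_nonneg_left _ hM0
      nlinarith
    have h7 : (3 * x) * (M₀ * ((M₀ + 2) * L)) ≤ (3 * x) * (M₀ * ((M₀ + 2) * ((2 * s + 1) * x))) := by
      gcongr
    have h8 : x ^ 2 ≤ (N : ℝ) ^ ε := by
      have h9 : x ^ 2 = (N : ℝ) ^ (2 / (s : ℝ)) := by
        rw [hx, ← Real.rpow_natCast, ← Real.rpow_mul (by linarith)]
        congr 1; push_cast; ring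
      rw [h9]
      exact Real.rpow_le_rpow_of_exponent_le hN1 hsε
    have h10 : (3 * x) * (M₀ * ((M₀ + 2) * ((2 * s + 1) * x))) ≤
        (3 * (M₀ * (M₀ + 2)) * (2 * s + 1)) * (N : ℝ) ^ ε := by
      calc (3 * x) * (M₀ * ((M₀ + 2) * ((2 * s + 1) * x)))
          = (3 * (M₀ * (M₀ + 2)) * (2 * s + 1)) * x ^ 2 := by ring
        _ ≤ _ := mul_le_mul_of_nonneg_left h8 (by positivity)
    calc ((QS δ M₀ N ∪ SM δ M₀ s N).ncard : ℝ) ≤ (QS δ M₀ N).ncard + (SM δ M₀ s N).ncard := h3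
      _ ≤ C₀ * (N : ℝ) ^ ε + (3 * (M₀ * (M₀ + 2)) * (2 * s + 1)) * (N : ℝ) ^ ε := by linarith
      _ = _ := by ring
  · intro a b m n hb hba haN hm hn hδm hM hne hlt
    rw [Set.Finite.mem_toFinset]
    rcases Nat.lt_or_ge m M₀ with h | h
    · right
      refine ⟨hb, hba, haN, hm, hn, hδm, h, ?_, hlt⟩
      simp only
      rcases hM with h' | h'
      · omega
      · omega
    · left
      exact ⟨hb, hba, haN, h, hn, hne, hlt⟩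

/-- both inequalities -/
theorem leech (hQ : SpecQUAD) : ∀ δ ε : ℝ, 0 < δ → 0 < ε → ∃ (M : ℕ) (C : ℝ), ∀ N : ℕ, 1 ≤ N →
    ∃ S : Finset (ℕ × ℕ × ℕ × ℕ), (S.card : ℝ) ≤ C * (N : ℝ) ^ ε ∧
      ∀ a b m n : ℕ, 1 ≤ b → b < a → a ≤ N → 2 ≤ m → 1 ≤ n → (M ≤ m ∨ M ≤ n) → a ^ m ≠ b ^ n →
        (|(a : ℤ) ^ m - (b : ℤ) ^ n| ≤ (a : ℤ) - b ∨
          (1 ≤ δ * m ∧ |(a : ℝ) ^ m - (b : ℝ) ^ n| < (a : ℝ) ^ ((1 - δ) * m))) →
        (a, b, m, n) ∈ S := by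
  classical
  intro δ ε hδ hε
  obtain ⟨M₁, C₁, h₁⟩ := both hQ (1 / 2) ε (by norm_num) hε
  obtain ⟨M₂, C₂, h₂⟩ := both hQ δ ε hδ hε
  refine ⟨max M₁ M₂, C₁ + C₂, fun N hN => ?_⟩
  obtain ⟨S₁, hS₁, k₁⟩ := h₁ N hN
  obtain ⟨S₂, hS₂, k₂⟩ := h₂ N hN
  refine ⟨S₁ ∪ S₂, ?_, fun a b m n hb hba haN hm hn hM hne hle => ?_⟩
  · have h3 : ((S₁ ∪ S₂).card : ℝ) ≤ S₁.card + S₂.card := by
      exact_mod_cast Finset.card_union_le _ _
    linarith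
  · rw [Finset.mem_union]
    rcases hle with hle | ⟨hδm, hlt⟩
    · left
      have hm2 : (2 : ℝ) ≤ m := by exact_mod_cast hm
      have ha1 : (1 : ℝ) ≤ a := by exact_mod_cast (by omega : 1 ≤ a)
      have hb1 : (1 : ℝ) ≤ b := by exact_mod_cast hb
      refine k₁ a b m n hb hba haN hm hn (by linarith) (by omega) hne ?_
      have h2 : |(a : ℝ) ^ m - (b : ℝ) ^ n| ≤ (a : ℝ) - b := by exact_mod_cast hle
      have h3 : (a : ℝ) ≤ (a : ℝ) ^ ((1 - 1 / 2) * (m : ℝ)) := by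
        calc (a : ℝ) = (a : ℝ) ^ (1 : ℝ) := (Real.rpow_one _).symm
          _ ≤ _ := Real.rpow_le_rpow_of_exponent_le ha1 (by linarith)
      linarith
    · right
      exact k₂ a b m n hb hba haN hm hn hδm (by omega) hne hlt

end Pool.Agent.Lib.MP3c6092.LE
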