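import Pool.Agent.Lib.MP_3c6092_nt.LE.TOT

/-!
# MP_3c6092_nt: large exponents, the number of the solutions `(a, b, m, n)`
-/

set_option autoImplicit false

namespace Pool.Agent.Lib.MP3c6092.LE

open Finset Pool.Agent.Lib.MP3c6092

/-- the reduction to coprime exponents, with the common factor -/
def SpecRDCg : Prop := ∀ (k a b m n : ℕ), 1 ≤ k → 1 ≤ b → b < a → 2 * k ≤ m → 1 ≤ n → a ^ m ≠ b ^ n →
  |(a : ℝ) ^ m - (b : ℝ) ^ n| < (a : ℝ) ^ ((1 - 1 / (k : ℝ)) * m) →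
  ∃ g m' n' : ℕ, 1 ≤ g ∧ m = g * m' ∧ n = g * n' ∧ m < k * m' ∧ 1 ≤ n' ∧ Nat.Coprime m' n' ∧
    Bad (2 * k) a b m' n'

/-- the theorem for the solutions -/
def SpecQUAD : Prop := ∀ δ ε : ℝ, 0 < δ → 0 < ε → ∃ (M : ℕ) (C : ℝ), ∀ N : ℕ, 1 ≤ N →
  ({p : ℕ × ℕ × ℕ × ℕ | 1 ≤ p.2.1 ∧ p.2.1 < p.1 ∧ p.1 ≤ N ∧ M ≤ p.2.2.1 ∧ 1 ≤ p.2.2.2 ∧
    p.1 ^ p.2.2.1 ≠ p.2.1 ^ p.2.2.2 ∧
    |(p.1 : ℝ) ^ p.2.2.1 - (p.2.1 : ℝ) ^ p.2.2.2| < (p.1 : ℝ) ^ ((1 - δ) * p.2.2.1)}).Finite ∧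
  (({p : ℕ × ℕ × ℕ × ℕ | 1 ≤ p.2.1 ∧ p.2.1 < p.1 ∧ p.1 ≤ N ∧ M ≤ p.2.2.1 ∧ 1 ≤ p.2.2.2 ∧
    p.1 ^ p.2.2.1 ≠ p.2.1 ^ p.2.2.2 ∧
    |(p.1 : ℝ) ^ p.2.2.1 - (p.2.1 : ℝ) ^ p.2.2.2| < (p.1 : ℝ) ^ ((1 - δ) * p.2.2.1)}.ncard : ℕ) : ℝ) ≤
      C * (N : ℝ) ^ ε

namespace QUADM

/-- the counted set -/
def QS (δ : ℝ) (M N : ℕ) : Set (ℕ × ℕ × ℕ × ℕ) :=
  {p : ℕ × ℕ × ℕ × ℕ | 1 ≤ p.2.1 ∧ p.2.1 < p.1 ∧ p.1 ≤ N ∧ M ≤ p.2.2.1 ∧ 1 ≤ p.2.2.2 ∧
    p.1 ^ p.2.2.1 ≠ p.2.1 ^ p.2.2.2 ∧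
    |(p.1 : ℝ) ^ p.2.2.1 - (p.2.1 : ℝ) ^ p.2.2.2| < (p.1 : ℝ) ^ ((1 - δ) * p.2.2.1)}

theorem QS_mono (δ : ℝ) (M : ℕ) {N N' : ℕ} (h : N ≤ N') : QS δ M N ⊆ QS δ M N' := by
  rintro p ⟨h1, h2, h3, h4⟩
  exact ⟨h1, h2, h3.trans h, h4⟩

open Classical in
/-- the cover -/
noncomputable def CQ (k K M₁ Q N : ℕ) : Finset (ℕ × ℕ × ℕ × ℕ) :=
  ((Finset.Icc 2 Q).filter fun m => M₁ ≤ m).biUnion fun m =>
    ((Finset.Icc 1 (m * (Nat.log 2 N + 1) + 1)).filter fun n => Nat.Coprime m n).biUnion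
      fun n => (Finset.range k ×ˢ Tmn K m n N).image fun q => (q.2.1, q.2.2, q.1 * m, q.1 * n)

theorem cover {k s m0 N M₁ Q : ℕ} {δ : ℝ} (hk : 1 ≤ k) (hδ : 1 / (k : ℝ) ≤ δ)
    (hRDC : SpecRDCg)
    (hg : ∀ m n a b : ℕ, m0 ≤ m → Nat.Coprime m n → 2 ≤ b → b < a → a ≤ m ^ s → Indep a b →
      (a : ℝ) ^ ((1 - 1 / ((2 * k : ℕ) : ℝ)) * m) ≤ |(a : ℝ) ^ m - (b : ℝ) ^ n|)
    (hm0 : m0 ^ s ≤ N) (hQ : ∀ m : ℕ, m ^ s ≤ N → m ≤ Q) :
    QS δ (k * M₁ + 2 * k) N ⊆ ↑(CQ k (2 * k) M₁ Q N) := by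
  classical
  rintro ⟨a, b, m, n⟩ ⟨hb1, hba, haN, hm, hn, hne, hlt⟩
  simp only at hb1 hba haN hm hn hne hlt
  have ha2 : 2 ≤ a := by omega
  have ha1 : (1 : ℝ) ≤ a := by exact_mod_cast (by omega : 1 ≤ a)
  have hlt' : |(a : ℝ) ^ m - (b : ℝ) ^ n| < (a : ℝ) ^ ((1 - 1 / (k : ℝ)) * m) := by
    refine hlt.trans_le (Real.rpow_le_rpow_of_exponent_le ha1 ?_)
    have : (0 : ℝ) ≤ m := Nat.cast_nonneg m
    exact mul_le_mul_of_nonneg_right (by linarith) this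
  obtain ⟨g, m', n', hg1, hmg, hng, hkm, hn', hcop, hbad⟩ :=
    hRDC k a b m n hk hb1 hba (by omega) hn hne hlt'
  have hM : M₁ ≤ m' := by
    have h1 : k * M₁ < k * m' := by omega
    exact (Nat.lt_of_mul_lt_mul_left h1).le
  have hm'1 : 1 ≤ m' := by
    rcases Nat.eq_zero_or_pos m' with h | h
    · rw [h] at hkm; omega
    · exact h
  have hgk : g < k := by
    rw [hmg] at hkm
    exact Nat.lt_of_mul_lt_mul_right hkm
  have hm2 := hbad.two_le_m ha2 hm'1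
  have hb2 := hbad.two_le_b hb1 hba hm'1
  have hind := hbad.indep ha2 hm'1
  have hmN : m' ^ s ≤ N := by
    by_contra hc
    have hc' : N < m' ^ s := not_le.1 hc
    have h0 : m0 ≤ m' := by
      by_contra h0
      exact absurd (Nat.pow_le_pow_left (not_le.1 h0).le s) (by omega)
    have h3 := hg m' n' a b h0 hcop hb2 hba (haN.trans hc'.le) hind
    have h4 := h3.trans_lt hbad.2
    have ha1' : (1 : ℝ) < a := by exact_mod_cast (by omega : 1 < a)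
    have h5 := (Real.rpow_lt_rpow_left_iff ha1').mp h4
    linarith
  have hnQ : n' ≤ m' * (Nat.log 2 N + 1) + 1 := by
    have h1 := b_le (by omega : 1 ≤ a) (hbad.lt_pow ha2 hm'1)
    have h2 : b ^ n' ≤ 2 * a ^ m' := by exact_mod_cast h1
    have h3 : a < 2 ^ (Nat.log 2 N + 1) :=
      lt_of_le_of_lt haN (Nat.lt_pow_succ_log_self (by norm_num) N)
    have h4 : 2 ^ n' ≤ b ^ n' := Nat.pow_le_pow_left hb2 n'
    have h5 : a ^ m' < (2 ^ (Nat.log 2 N + 1)) ^ m' := Nat.pow_lt_pow_left h3 (by omega)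
    have h6 : 2 ^ n' < 2 ^ ((Nat.log 2 N + 1) * m' + 1) := by
      calc 2 ^ n' ≤ 2 * a ^ m' := h4.trans h2
        _ < 2 * (2 ^ (Nat.log 2 N + 1)) ^ m' := by omega
        _ = 2 ^ ((Nat.log 2 N + 1) * m' + 1) := by rw [← pow_mul, pow_succ, mul_comm]
    have h7 := (Nat.pow_lt_pow_iff_right (by norm_num : 1 < 2)).mp h6
    rw [mul_comm m']
    omega
  simp only [CQ, coe_biUnion, Set.mem_iUnion, mem_coe, mem_filter, mem_Icc, mem_image, mem_product,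
    mem_range]
  refine ⟨m', ⟨⟨hm2, hQ m' hmN⟩, hM⟩, n', ⟨⟨hn', hnQ⟩, hcop⟩, (g, (a, b)), ⟨hgk, ?_⟩, ?_⟩
  · simp only [Tmn, mem_filter, mem_product, mem_range]
    exact ⟨⟨by omega, by omega⟩, hb1, hba, hbad⟩
  · simp only [hmg, hng]

theorem card_CQ {k K s M₁ Q N : ℕ} {C₁ : ℝ} (hC₁ : 0 ≤ C₁) (hN : 1 ≤ N)
    (hQ : (Q : ℝ) ≤ (N : ℝ) ^ (1 / (s : ℝ))) (hQs : Q ^ s ≤ N)
    (hB : ∀ m n : ℕ, Nat.Coprime m n → M₁ ≤ m → 1 ≤ n → m ^ s ≤ N →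
      ((Bs K m n N).card : ℝ) ≤ C₁ * (N : ℝ) ^ (1 / (s : ℝ)) * ((Nat.log 2 N + 1 : ℕ) : ℝ)) :
    ((CQ k K M₁ Q N).card : ℝ) ≤ 2 * (k * C₁) * ((N : ℝ) ^ (1 / (s : ℝ))) ^ 3 *
      ((Nat.log 2 N + 1 : ℕ) : ℝ) ^ 2 := by
  classical
  have hN1 : (1 : ℝ) ≤ N := by exact_mod_cast hN
  obtain ⟨x, hx⟩ : ∃ x : ℝ, x = (N : ℝ) ^ (1 / (s : ℝ)) := ⟨_, rfl⟩
  rw [← hx] at hQ hB ⊢
  have hx1 : 1 ≤ x := by rw [hx]; exact Real.one_le_rpow hN1 (by positivity)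
  obtain ⟨L, hL⟩ : ∃ L : ℕ, L = Nat.log 2 N + 1 := ⟨_, rfl⟩
  have hL1 : 1 ≤ L := by omega
  have hL1r : (1 : ℝ) ≤ L := by exact_mod_cast hL1
  unfold CQ
  rw [← hL] at hB ⊢
  have hk0 : (0 : ℝ) ≤ k := Nat.cast_nonneg k
  have hBd0 : 0 ≤ k * (C₁ * x * L) := by positivity
  have hinner : ∀ m ∈ (Finset.Icc 2 Q).filter (fun m => M₁ ≤ m),
      (((((Finset.Icc 1 (m * L + 1)).filter fun n => Nat.Coprime m n).biUnion
        fun n => (Finset.range k ×ˢ Tmn K m n N).image fun q => (q.2.1, q.2.2, q.1 * m, q.1 * n))).card : ℝ)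
        ≤ (2 * x * L) * (k * (C₁ * x * L)) := by
    intro m hm
    rw [Finset.mem_filter, Finset.mem_Icc] at hm
    have hmQ : (m : ℝ) ≤ x := le_trans (by exact_mod_cast hm.1.2) hQ
    have hms : m ^ s ≤ N := (Nat.pow_le_pow_left hm.1.2 s).trans hQs
    have h1 : (((((Finset.Icc 1 (m * L + 1)).filter fun n => Nat.Coprime m n).biUnion
        fun n => (Finset.range k ×ˢ Tmn K m n N).image fun q => (q.2.1, q.2.2, q.1 * m, q.1 * n))).card : ℝ)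
        ≤ ∑ n ∈ (Finset.Icc 1 (m * L + 1)).filter (fun n => Nat.Coprime m n),
          ((((Finset.range k ×ˢ Tmn K m n N).image fun q => (q.2.1, q.2.2, q.1 * m, q.1 * n)).card : ℕ) : ℝ) := by
      have := Finset.card_biUnion_le
        (s := (Finset.Icc 1 (m * L + 1)).filter fun n => Nat.Coprime m n)
        (t := fun n => (Finset.range k ×ˢ Tmn K m n N).image fun q => (q.2.1, q.2.2, q.1 * m, q.1 * n))
      exact_mod_cast this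
    refine h1.trans ?_
    calc ∑ n ∈ (Finset.Icc 1 (m * L + 1)).filter (fun n => Nat.Coprime m n),
          ((((Finset.range k ×ˢ Tmn K m n N).image fun q => (q.2.1, q.2.2, q.1 * m, q.1 * n)).card : ℕ) : ℝ)
        ≤ ∑ _n ∈ (Finset.Icc 1 (m * L + 1)).filter (fun n => Nat.Coprime m n), k * (C₁ * x * L) := by
          refine Finset.sum_le_sum fun n hn => ?_
          rw [Finset.mem_filter, Finset.mem_Icc] at hn
          have h2 : ((Tmn K m n N).card : ℝ) ≤ ((Bs K m n N).card : ℝ) := by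
            exact_mod_cast card_Tmn hm.1.1
          have h3 : ((((Finset.range k ×ˢ Tmn K m n N).image
              fun q => (q.2.1, q.2.2, q.1 * m, q.1 * n)).card : ℕ) : ℝ) ≤ k * ((Tmn K m n N).card : ℝ) := by
            have h4 := Finset.card_image_le (s := Finset.range k ×ˢ Tmn K m n N)
              (f := fun q => (q.2.1, q.2.2, q.1 * m, q.1 * n))
            rw [Finset.card_product, Finset.card_range] at h4
            exact_mod_cast h4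
          exact h3.trans (mul_le_mul_of_nonneg_left (h2.trans (hB m n hn.2 hm.2 hn.1.1 hms)) hk0)
      _ = (((Finset.Icc 1 (m * L + 1)).filter fun n => Nat.Coprime m n).card : ℝ) *
            (k * (C₁ * x * L)) := by
          rw [Finset.sum_const, nsmul_eq_mul]
      _ ≤ (2 * x * L) * (k * (C₁ * x * L)) := by
          refine mul_le_mul_of_nonneg_right ?_ hBd0
          have h3 : (((Finset.Icc 1 (m * L + 1)).filter fun n => Nat.Coprime m n).card : ℝ) ≤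
              ((m * L + 1 : ℕ) : ℝ) := by
            have h4 := Finset.card_filter_le (Finset.Icc 1 (m * L + 1)) fun n => Nat.Coprime m n
            rw [Nat.card_Icc, Nat.add_sub_cancel] at h4
            exact_mod_cast h4
          refine h3.trans ?_
          push_cast
          nlinarith
  have h2 := Finset.card_biUnion_le (s := (Finset.Icc 2 Q).filter fun m => M₁ ≤ m)
    (t := fun m => ((Finset.Icc 1 (m * L + 1)).filter fun n => Nat.Coprime m n).biUnion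
      fun n => (Finset.range k ×ˢ Tmn K m n N).image fun q => (q.2.1, q.2.2, q.1 * m, q.1 * n))
  calc (((((Finset.Icc 2 Q).filter fun m => M₁ ≤ m).biUnion fun m =>
        ((Finset.Icc 1 (m * L + 1)).filter fun n => Nat.Coprime m n).biUnion
          fun n => (Finset.range k ×ˢ Tmn K m n N).image
            fun q => (q.2.1, q.2.2, q.1 * m, q.1 * n))).card : ℝ)
      ≤ ∑ m ∈ (Finset.Icc 2 Q).filter (fun m => M₁ ≤ m),
          (((((Finset.Icc 1 (m * L + 1)).filter fun n => Nat.Coprime m n).biUnion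
            fun n => (Finset.range k ×ˢ Tmn K m n N).image
              fun q => (q.2.1, q.2.2, q.1 * m, q.1 * n))).card : ℝ) := by exact_mod_cast h2
    _ ≤ ∑ _m ∈ (Finset.Icc 2 Q).filter (fun m => M₁ ≤ m), (2 * x * L) * (k * (C₁ * x * L)) :=
        Finset.sum_le_sum hinner
    _ = (((Finset.Icc 2 Q).filter fun m => M₁ ≤ m).card : ℝ) *
          ((2 * x * L) * (k * (C₁ * x * L))) := by rw [Finset.sum_const, nsmul_eq_mul]
    _ ≤ x * ((2 * x * L) * (k * (C₁ * x * L))) := by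
        refine mul_le_mul_of_nonneg_right ?_ (by positivity)
        have h4 := Finset.card_filter_le (Finset.Icc 2 Q) fun m => M₁ ≤ m
        rw [Nat.card_Icc] at h4
        have h5 : ((Finset.Icc 2 Q).filter fun m => M₁ ≤ m).card ≤ Q := by omega
        exact le_trans (by exact_mod_cast h5) hQ
    _ = 2 * (k * C₁) * x ^ 3 * (L : ℝ) ^ 2 := by ring

end QUADM

open QUADM in
theorem specQUAD (hBSB : SpecBSB) (hRDC : SpecRDCg) : SpecQUAD := by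
  intro δ ε hδ hε
  obtain ⟨k, hkdef⟩ : ∃ k : ℕ, k = ⌈1 / δ⌉₊ := ⟨_, rfl⟩
  have hk : 1 ≤ k := by
    rw [hkdef]
    exact Nat.one_le_iff_ne_zero.2 (Nat.ceil_pos.2 (by positivity)).ne'
  have hk0 : (0 : ℝ) < k := by exact_mod_cast hk
  have hkδ : 1 / (k : ℝ) ≤ δ := by
    have h1 : 1 / δ ≤ k := by rw [hkdef]; exact Nat.le_ceil _
    rw [div_le_iff₀ hδ] at h1
    rw [div_le_iff₀ hk0]
    linarith
  obtain ⟨s, hsdef⟩ : ∃ s : ℕ, s = ⌈8 / ε⌉₊ := ⟨_, rfl⟩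
  have hs : 1 ≤ s := by
    rw [hsdef]
    exact Nat.one_le_iff_ne_zero.2 (Nat.ceil_pos.2 (by positivity)).ne'
  have hs0 : (0 : ℝ) < s := by exact_mod_cast hs
  have hsε : 8 / (s : ℝ) ≤ ε := by
    have h1 : 8 / ε ≤ s := by rw [hsdef]; exact Nat.le_ceil _
    rw [div_le_iff₀ hε] at h1
    rw [div_le_iff₀ hs0]
    linarith
  obtain ⟨M₁, C₁, hM₁, hC₁, hB⟩ := hBSB s (2 * k) hs (by omega)
  obtain ⟨m0, hg⟩ := gelfond (2 * k) s (by omega) hs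
  obtain ⟨C, hC⟩ : ∃ C : ℝ, C = 2 * (k * C₁) * (2 * s + 1) ^ 2 := ⟨_, rfl⟩
  have hC0 : 0 ≤ C := by rw [hC]; positivity
  have key : ∀ N : ℕ, 1 ≤ N → m0 ^ s ≤ N → (QS δ (k * M₁ + 2 * k) N).Finite ∧
      ((QS δ (k * M₁ + 2 * k) N).ncard : ℝ) ≤ C * (N : ℝ) ^ ε := by
    intro N hN hge
    have hN1 : (1 : ℝ) ≤ N := by exact_mod_cast hN
    obtain ⟨x, hx⟩ : ∃ x : ℝ, x = (N : ℝ) ^ (1 / (s : ℝ)) := ⟨_, rfl⟩
    have hx1 : 1 ≤ x := by rw [hx]; exact Real.one_le_rpow hN1 (by positivity)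
    have hxs : x ^ s = N := by
      rw [hx, ← Real.rpow_natCast, ← Real.rpow_mul (by linarith), one_div_mul_cancel hs0.ne',
        Real.rpow_one]
    have hQ : ∀ m : ℕ, m ^ s ≤ N → m ≤ ⌊x⌋₊ := by
      intro m hm
      refine Nat.le_floor ?_
      have h1 : (m : ℝ) ^ s ≤ x ^ s := by rw [hxs]; exact_mod_cast hm
      exact (pow_le_pow_iff_left₀ (Nat.cast_nonneg m) (by linarith) (by omega)).1 h1
    have hQx : ((⌊x⌋₊ : ℕ) : ℝ) ≤ x := Nat.floor_le (by linarith)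
    have hQs : ⌊x⌋₊ ^ s ≤ N := by
      have h1 : ((⌊x⌋₊ : ℕ) : ℝ) ^ s ≤ N := by
        rw [← hxs]
        exact pow_le_pow_left₀ (Nat.cast_nonneg _) hQx s
      exact_mod_cast h1
    have hcov := QUADM.cover (s := s) (M₁ := M₁) (Q := ⌊x⌋₊) hk hkδ hRDC hg hge hQ
    refine ⟨(Finset.finite_toSet _).subset hcov, ?_⟩
    have h1 : (QS δ (k * M₁ + 2 * k) N).ncard ≤ (CQ k (2 * k) M₁ ⌊x⌋₊ N).card := by
      rw [← Set.ncard_coe_finset]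
      exact Set.ncard_le_ncard hcov (Finset.finite_toSet _)
    have h2 := card_CQ (k := k) (K := 2 * k) (s := s) (M₁ := M₁) (Q := ⌊x⌋₊) (N := N) hC₁ hN
      (by rw [← hx]; exact hQx) hQs (fun m n h3 h4 h5 h6 => hB N m n hN h3 h4 h5 h6)
    have h3 := TOTM.log_bound hs hN
    rw [← hx] at h2 h3
    have h4 : ((Nat.log 2 N + 1 : ℕ) : ℝ) ^ 2 ≤ ((2 * s + 1) * x) ^ 2 :=
      pow_le_pow_left₀ (Nat.cast_nonneg _) h3 2
    have h5 : x ^ 5 ≤ (N : ℝ) ^ ε := by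
      have h6 : x ^ 5 = (N : ℝ) ^ (5 / (s : ℝ)) := by
        rw [hx, ← Real.rpow_natCast, ← Real.rpow_mul (by linarith)]
        congr 1; push_cast; ring
      rw [h6]
      apply Real.rpow_le_rpow_of_exponent_le hN1
      have h7 : 5 / (s : ℝ) ≤ 8 / (s : ℝ) := by gcongr; norm_num
      linarith
    calc ((QS δ (k * M₁ + 2 * k) N).ncard : ℝ) ≤ ((CQ k (2 * k) M₁ ⌊x⌋₊ N).card : ℝ) := by
          exact_mod_cast h1
      _ ≤ 2 * (k * C₁) * x ^ 3 * ((Nat.log 2 N + 1 : ℕ) : ℝ) ^ 2 := h2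
      _ ≤ 2 * (k * C₁) * x ^ 3 * ((2 * s + 1) * x) ^ 2 :=
          mul_le_mul_of_nonneg_left h4 (by positivity)
      _ = C * x ^ 5 := by rw [hC]; ring
      _ ≤ C * (N : ℝ) ^ ε := mul_le_mul_of_nonneg_left h5 hC0
  refine ⟨k * M₁ + 2 * k, C + C * ((m0 ^ s : ℕ) : ℝ) ^ ε, ?_⟩
  intro N hN
  have hN1 : (1 : ℝ) ≤ N := by exact_mod_cast hN
  show (QS δ (k * M₁ + 2 * k) N).Finite ∧ ((QS δ (k * M₁ + 2 * k) N).ncard : ℝ) ≤ _
  have hNε : 1 ≤ (N : ℝ) ^ ε := Real.one_le_rpow hN1 hε.le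
  have hP0 : 0 ≤ C * ((m0 ^ s : ℕ) : ℝ) ^ ε := by positivity
  rcases Nat.lt_or_ge N (m0 ^ s) with hlt | hge
  · obtain ⟨h1, h2⟩ := key (m0 ^ s) (by omega) le_rfl
    have h3 := QS_mono δ (k * M₁ + 2 * k) hlt.le
    refine ⟨h1.subset h3, ?_⟩
    have h4 : ((QS δ (k * M₁ + 2 * k) N).ncard : ℝ) ≤ ((QS δ (k * M₁ + 2 * k) (m0 ^ s)).ncard : ℝ) := by
      exact_mod_cast Set.ncard_le_ncard h3 h1
    have h5 : C * ((m0 ^ s : ℕ) : ℝ) ^ ε ≤ (C + C * ((m0 ^ s : ℕ) : ℝ) ^ ε) * (N : ℝ) ^ ε := by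
      have h6 : C * ((m0 ^ s : ℕ) : ℝ) ^ ε * 1 ≤ C * ((m0 ^ s : ℕ) : ℝ) ^ ε * (N : ℝ) ^ ε :=
        mul_le_mul_of_nonneg_left hNε hP0
      have h7 : 0 ≤ C * (N : ℝ) ^ ε := by positivity
      linarith
    exact h4.trans (h2.trans h5)
  · obtain ⟨h1, h2⟩ := key N hN hge
    refine ⟨h1, h2.trans ?_⟩
    have h7 : 0 ≤ C * ((m0 ^ s : ℕ) : ℝ) ^ ε * (N : ℝ) ^ ε := by positivity
    linarith

end Pool.Agent.Lib.MP3c6092.LE
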