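import Pool.Agent.Lib.MP_3c6092_nt.LE.Quad

/-!
# MP_3c6092_nt: reduction to coprime exponents, with the common factor
-/

set_option autoImplicit false

namespace Pool.Agent.Lib.MP3c6092.LE

open Finset Pool.Agent.Lib.MP3c6092

theorem specRDCg : SpecRDCg := by
  intro k a b m n hk hb1 hba hm hn hne hlt
  have ha2 : 2 ≤ a := by omega
  have ha0 : (0 : ℝ) < a := by exact_mod_cast (by omega : 0 < a)
  have ha1 : (1 : ℝ) < a := by exact_mod_cast (by omega : 1 < a)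
  have hk0 : (0 : ℝ) < k := by exact_mod_cast hk
  have hm1 : 1 ≤ m := by omega
  obtain ⟨g, hg⟩ : ∃ g : ℕ, g = Nat.gcd m n := ⟨_, rfl⟩
  have hg1 : 1 ≤ g := by rw [hg]; exact Nat.gcd_pos_of_pos_left n (by omega)
  obtain ⟨m', hm'⟩ : ∃ m' : ℕ, m' = m / g := ⟨_, rfl⟩
  obtain ⟨n', hn'⟩ : ∃ n' : ℕ, n' = n / g := ⟨_, rfl⟩
  have hmg : m = g * m' := by
    rw [hm', hg]; exact (Nat.mul_div_cancel' (Nat.gcd_dvd_left m n)).symm
  have hng : n = g * n' := by
    rw [hn', hg]; exact (Nat.mul_div_cancel' (Nat.gcd_dvd_right m n)).symm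
  have hcop : Nat.Coprime m' n' := by
    rw [hm', hn', hg]
    exact Nat.coprime_div_gcd_div_gcd (Nat.gcd_pos_of_pos_left n (by omega))
  have hm'1 : 1 ≤ m' := by
    rcases Nat.eq_zero_or_pos m' with h | h
    · rw [h] at hmg; omega
    · exact h
  have hn'1 : 1 ≤ n' := by
    rcases Nat.eq_zero_or_pos n' with h | h
    · rw [h] at hng; omega
    · exact h
  have hne' : a ^ m' ≠ b ^ n' := by
    intro h
    apply hne
    rw [hmg, hng, mul_comm g m', mul_comm g n', pow_mul, pow_mul, h]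
  have hx0 : (0 : ℝ) ≤ (a : ℝ) ^ m' := by positivity
  have hy0 : (0 : ℝ) ≤ (b : ℝ) ^ n' := by positivity
  have h1 := pow_diff hx0 hy0 hg1
  rw [← pow_mul, ← pow_mul, ← pow_mul, mul_comm m' g, mul_comm n' g, ← hmg, ← hng] at h1
  have h2 := h1.trans_lt hlt
  -- divide
  have hmr : (m : ℝ) = g * m' := by exact_mod_cast hmg
  have hpow : (a : ℝ) ^ (m' * (g - 1)) = (a : ℝ) ^ ((m : ℝ) - m') := by
    rw [← Real.rpow_natCast]
    congr 1
    push_cast [Nat.cast_sub hg1]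
    rw [hmr]; ring
  have h3 : |(a : ℝ) ^ m' - (b : ℝ) ^ n'| < (a : ℝ) ^ ((m' : ℝ) - m / k) := by
    rw [hpow] at h2
    have h4 : (a : ℝ) ^ ((m' : ℝ) - m / k) * (a : ℝ) ^ ((m : ℝ) - m') =
        (a : ℝ) ^ ((1 - 1 / (k : ℝ)) * m) := by
      rw [← Real.rpow_add ha0]
      congr 1
      field_simp
      ring
    rw [← h4] at h2
    exact lt_of_mul_lt_mul_right h2 (by positivity)
  have h5 : (1 : ℝ) ≤ |(a : ℝ) ^ m' - (b : ℝ) ^ n'| := by
    have h6 : ((a : ℤ) ^ m' - (b : ℤ) ^ n') ≠ 0 := by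
      intro h
      apply hne'
      have : (a : ℤ) ^ m' = (b : ℤ) ^ n' := by linarith
      exact_mod_cast this
    have h7 := Int.one_le_abs h6
    have h8 : ((1 : ℤ) : ℝ) ≤ ((|(a : ℤ) ^ m' - (b : ℤ) ^ n'| : ℤ) : ℝ) := by exact_mod_cast h7
    push_cast at h8
    exact h8
  have h6 : (0 : ℝ) < (m' : ℝ) - m / k := by
    have h7 : (a : ℝ) ^ (0 : ℝ) < (a : ℝ) ^ ((m' : ℝ) - m / k) := by
      rw [Real.rpow_zero]; exact h5.trans_lt h3
    exact (Real.rpow_lt_rpow_left_iff ha1).1 h7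
  have hkm : m < k * m' := by
    have h7 : (m : ℝ) / k < m' := by linarith
    rw [div_lt_iff₀ hk0] at h7
    have h8 : (m : ℝ) < ((k * m' : ℕ) : ℝ) := by push_cast; linarith
    exact_mod_cast h8
  refine ⟨g, m', n', hg1, hmg, hng, hkm, hn'1, hcop, hne', h3.trans_le ?_⟩
  apply Real.rpow_le_rpow_of_exponent_le ha1.le
  have hmm : (m' : ℝ) ≤ m := by
    have : m' ≤ m := by rw [hmg]; exact Nat.le_mul_of_pos_left m' hg1
    exact_mod_cast this
  have hm2k : 2 * (k : ℝ) ≤ m := by exact_mod_cast hm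
  push_cast
  have h8 : (m' : ℝ) / (2 * k) ≤ m / (2 * k) := by gcongr
  have h9 : (1 : ℝ) ≤ m / (2 * k) := by
    rw [le_div_iff₀ (by positivity)]; linarith
  have h10 : (m : ℝ) / k = m / (2 * k) + m / (2 * k) := by field_simp; ring
  have h11 : (1 - 1 / (2 * (k : ℝ))) * m' = m' - m' / (2 * k) := by ring
  rw [h11, h10]
  linarith

end Pool.Agent.Lib.MP3c6092.LE
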