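import Pool.Agent.Lib.MP_3c6092_nt.LE.Spec

/-! # Module UPD: the determinant is small -/

set_option autoImplicit false

namespace Pool.Agent.Lib.MP3c6092.LE

open Finset Pool.Agent.Lib.MP3c6092

namespace UPDM

/-- the analytic functions -/
noncomputable def w (d : ℕ) (θ : ℝ) (v : Fin (d * d)) (z : ℂ) : ℂ :=
  z ^ ei d v * Complex.exp (((θ * ej d v : ℝ) : ℂ) * Complex.log z)

lemma ei_lt (d : ℕ) (v : Fin (d * d)) : ei d v < d := (finProdFinEquiv.symm v).1.2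

lemma ej_lt (d : ℕ) (v : Fin (d * d)) : ej d v < d := (finProdFinEquiv.symm v).2.2

lemma w_diff (d : ℕ) (θ : ℝ) (v : Fin (d * d)) {s : Set ℂ} (hs : ∀ z ∈ s, 0 < z.re) :
    DifferentiableOn ℂ (w d θ v) s := by
  unfold w
  refine (differentiableOn_id.pow _).mul ((differentiableOn_const _).mul ?_).cexp
  exact differentiableOn_id.clog (fun z hz => Or.inl (hs z hz))

lemma w_norm (d : ℕ) {θ Θ X : ℝ} (v : Fin (d * d)) {z : ℂ} (hz : 0 < z.re) (hθ : 0 ≤ θ)
    (hΘ : θ ≤ Θ) (hX : 1 ≤ X) (hzX : ‖z‖ ≤ 3 * X) :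
    ‖w d θ v z‖ ≤ (3 * X) ^ ((d : ℝ) * (1 + Θ)) := by
  have hz0 : z ≠ 0 := by
    rintro rfl
    simp at hz
  have hzn : 0 < ‖z‖ := norm_pos_iff.2 hz0
  have h1 : ‖w d θ v z‖ = ‖z‖ ^ ei d v * ‖z‖ ^ (θ * ej d v) := by
    unfold w
    rw [norm_mul, norm_pow, Complex.norm_exp, Complex.re_ofReal_mul, Complex.log_re,
      Real.rpow_def_of_pos hzn, mul_comm (Real.log ‖z‖)]
  rw [h1]
  have hi : (ei d v : ℝ) ≤ d := by exact_mod_cast (ei_lt d v).le
  have hj : (ej d v : ℝ) ≤ d := by exact_mod_cast (ej_lt d v).le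
  have hj0 : (0 : ℝ) ≤ ej d v := Nat.cast_nonneg _
  calc ‖z‖ ^ ei d v * ‖z‖ ^ (θ * ej d v)
      ≤ (3 * X) ^ ei d v * (3 * X) ^ (θ * ej d v) := by
        gcongr
    _ = (3 * X) ^ ((ei d v : ℝ) + θ * ej d v) := by
        rw [Real.rpow_add (by linarith), Real.rpow_natCast]
    _ ≤ (3 * X) ^ ((d : ℝ) * (1 + Θ)) := by
        apply Real.rpow_le_rpow_of_exponent_le (by linarith)
        have hΘ0 : 0 ≤ Θ := hθ.trans hΘ
        have : θ * ej d v ≤ Θ * d := by gcongr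
        linarith

lemma w_real (d : ℕ) (θ : ℝ) (v : Fin (d * d)) {x : ℝ} (hx : 0 < x) :
    w d θ v (x : ℂ) = ((x ^ ((ei d v : ℝ) + θ * ej d v) : ℝ) : ℂ) := by
  unfold w
  rw [← Complex.ofReal_log hx.le, Real.rpow_add hx, Real.rpow_natCast, Real.rpow_def_of_pos hx]
  push_cast
  rw [mul_comm (Complex.ofReal (Real.log x))]

end UPDM

open UPDM in
theorem specUPD : SpecUPD := by
  intro d θ Θ X ℓ b₀ b a hθ hΘ hX hℓ h4 hb1 hb2 hb herr
  have hX0 : 0 < X := by linarith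
  have hbpos : ∀ u, (0 : ℝ) < b u := by
    intro u
    have := (abs_le.1 (hb u)).1
    linarith
  set W₀ : ℝ := (3 * X) ^ ((d : ℝ) * (1 + Θ)) with hW₀
  have hW₀0 : 0 ≤ W₀ := by positivity
  have hq : ℓ / (X / 2) = 2 * ℓ / X := by
    field_simp
  have hre : ∀ z : ℂ, ∀ t : ℝ, ‖z - (b₀ : ℂ)‖ ≤ t → b₀ - t ≤ z.re := by
    intro z t hz
    have h1 : |(z - (b₀ : ℂ)).re| ≤ t := (Complex.abs_re_le_norm _).trans hz
    rw [Complex.sub_re, Complex.ofReal_re] at h1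
    have := (abs_le.1 h1).1
    linarith
  have hint := Pool.Agent.Lib.MP_524521_nt.RA.interp_det (N := d * d)
    (K := (d * d / 2) * (d * d / 2)) (h := 1) le_rfl
    (b₀ : ℂ) (r := ℓ) (ρ := X / 2) (R' := 3 * X / 4) (W₀ := W₀) hℓ (by linarith)
    (by linarith) hW₀0 (fun _ => w d θ)
    (fun _ v => by
      apply w_diff
      intro z hz
      rw [Metric.mem_ball, dist_eq_norm] at hz
      have := hre z _ hz.le
      linarith)
    (fun _ v z hz => by
      rw [Metric.mem_closedBall, dist_eq_norm] at hz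
      have h1 := hre z _ hz
      refine w_norm d v (by linarith) hθ hΘ hX ?_
      have h2 : ‖z‖ ≤ ‖z - (b₀ : ℂ)‖ + ‖(b₀ : ℂ)‖ := by
        have := norm_add_le (z - (b₀ : ℂ)) (b₀ : ℂ)
        rwa [sub_add_cancel] at this
      rw [Complex.norm_real, Real.norm_eq_abs, abs_of_nonneg (by linarith)] at h2
      linarith)
    (fun _ _ => 1) (fun _ _ => by simp) (fun u => ((b u : ℝ) : ℂ))
    (fun u => by
      rw [← Complex.ofReal_sub, Complex.norm_real, Real.norm_eq_abs]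
      exact hb u)
    (fun u v => (((b u : ℝ) ^ ei d v * (a u : ℝ) ^ ej d v : ℝ) : ℂ) - w d θ v ((b u : ℝ) : ℂ))
    (fun u v => by
      rw [w_real d θ v (hbpos u), ← Complex.ofReal_sub, Complex.norm_real, Real.norm_eq_abs, hq]
      exact herr u v)
    (by rw [mul_one])
  have hmat : (Matrix.of (fun (i j : Fin (d * d)) => (∑ _l : Fin 1, (1 : ℂ) * w d θ i ((b j : ℝ) : ℂ)) +
      ((((b j : ℝ) ^ ei d i * (a j : ℝ) ^ ej d i : ℝ) : ℂ) - w d θ i ((b j : ℝ) : ℂ))))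
      = ((Matrix.of fun u v : Fin (d * d) => (b u : ℝ) ^ ei d v * (a u : ℝ) ^ ej d v).map
        (algebraMap ℝ ℂ)).transpose := by
    ext i j
    simp only [Matrix.of_apply, Matrix.transpose_apply, Matrix.map_apply,
      Finset.univ_unique, Finset.sum_singleton, one_mul]
    rw [add_sub_cancel]
    rfl
  rw [hmat, Matrix.det_transpose] at hint
  have hdetC : ((Matrix.of fun u v : Fin (d * d) => (b u : ℝ) ^ ei d v * (a u : ℝ) ^ ej d v).map
      (algebraMap ℝ ℂ)).det = (((Matrix.of fun u v : Fin (d * d) =>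
        (b u : ℝ) ^ ei d v * (a u : ℝ) ^ ej d v).det : ℝ) : ℂ) := by
    have := (algebraMap ℝ ℂ).map_det
      (Matrix.of fun u v : Fin (d * d) => (b u : ℝ) ^ ei d v * (a u : ℝ) ^ ej d v)
    exact this.symm
  rw [hdetC, Complex.norm_real, Real.norm_eq_abs, hq] at hint
  have h21 : (2 * ((1 : ℕ) : ℝ) + 1) = 3 := by norm_num
  rw [h21, mul_one] at hint
  exact_mod_cast hint

end Pool.Agent.Lib.MP3c6092.LE
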