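import Pool.Agent.Lib.MP_3c6092_nt.LE.LBD
import Pool.Agent.Lib.MP_3c6092_nt.LE.UPD
import Pool.Agent.Lib.MP_3c6092_nt.LE.ERR
import Pool.Agent.Lib.MP_3c6092_nt.LE.FIB
import Pool.Agent.Lib.MP_3c6092_nt.LE.BSB
import Pool.Agent.Lib.MP_3c6092_nt.LE.RDCg
import Pool.Agent.Lib.MP_3c6092_nt.LE.Quad
import Pool.Agent.Lib.MP_3c6092_nt.LE.Leech

/-!
# MP_3c6092_nt: large exponents, all modules together
-/

set_option autoImplicit false

namespace Pool.Agent.Lib.MP3c6092.LE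

theorem allQUAD : SpecQUAD := specQUAD (specBSB (specFIB specLBD specUPD specERR)) specRDCg

end Pool.Agent.Lib.MP3c6092.LE
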