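import Pool.Agent.Lib.MP_3c6092_nt.LE.Spec

/-!
# LBD (MP_3c6092_nt): repeated mean value theorem for sums of powers
-/

set_option autoImplicit false

namespace Pool.Agent.Lib.MP3c6092.LE

open Finset Pool.Agent.Lib.MP3c6092

namespace LBDM

lemma exists_mu {a A X : ℝ} (ha : |a| ≤ A) (hX : 1 ≤ X) : ∃ μ : ℝ, 0 ≤ μ ∧
    (∀ x, X ≤ x → x ≤ 2 * X → x ^ (-a) ≤ μ) ∧
    ∀ y, X ≤ y → y ≤ 2 * X → μ * y ^ a ≤ (2 : ℝ) ^ A := by
  have hX0 : 0 < X := by linarith
  rcases le_total 0 a with h | h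
  · refine ⟨X ^ (-a), Real.rpow_nonneg hX0.le _, ?_, ?_⟩
    · intro x hx _
      exact Real.rpow_le_rpow_of_nonpos hX0 hx (by linarith)
    · intro y hy1 hy2
      have h1 : y ^ a ≤ (2 * X) ^ a := Real.rpow_le_rpow (by linarith) hy2 h
      calc X ^ (-a) * y ^ a ≤ X ^ (-a) * (2 * X) ^ a :=
            mul_le_mul_of_nonneg_left h1 (Real.rpow_nonneg hX0.le _)
        _ = (2 : ℝ) ^ a := by
            rw [Real.mul_rpow (by norm_num) hX0.le, Real.rpow_neg hX0.le]
            have : X ^ a ≠ 0 := (Real.rpow_pos_of_pos hX0 _).ne'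
            field_simp
        _ ≤ (2 : ℝ) ^ A := Real.rpow_le_rpow_of_exponent_le (by norm_num)
            ((le_abs_self a).trans ha)
  · refine ⟨(2 * X) ^ (-a), Real.rpow_nonneg (by linarith) _, ?_, ?_⟩
    · intro x hx1 hx2
      exact Real.rpow_le_rpow (by linarith) hx2 (by linarith)
    · intro y hy1 hy2
      have h1 : y ^ a ≤ X ^ a := Real.rpow_le_rpow_of_nonpos hX0 hy1 h
      calc (2 * X) ^ (-a) * y ^ a ≤ (2 * X) ^ (-a) * X ^ a :=
            mul_le_mul_of_nonneg_left h1 (Real.rpow_nonneg (by linarith) _)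
        _ = (2 : ℝ) ^ (-a) := by
            rw [Real.mul_rpow (by norm_num) hX0.le, mul_assoc, ← Real.rpow_add hX0]
            simp
        _ ≤ (2 : ℝ) ^ A := Real.rpow_le_rpow_of_exponent_le (by norm_num)
            ((neg_le_abs a).trans ha)

lemma main {ι : Type} [DecidableEq ι] {A X : ℝ} (hX : 1 ≤ X) (n : ℕ) :
    ∀ (S : Finset ι) (e c : ι → ℝ) (q0 : ι) (η : ℝ) (x : ℕ → ℝ), S.card = n + 1 →
    q0 ∈ S → 0 ≤ η → (∀ p ∈ S, |e p| ≤ A) → (∀ p ∈ S, ∀ q ∈ S, |e p - e q| + 1 ≤ A) →
    (∀ k < 2 ^ n, X ≤ x k ∧ x k ≤ 2 * X) →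
    (∀ k, k + 1 < 2 ^ n → x k + 1 ≤ x (k + 1)) →
    (∀ k < 2 ^ n, |∑ p ∈ S, c p * x k ^ e p| ≤ η) →
    ∃ y : ℝ, X ≤ y ∧ y ≤ 2 * X ∧
      |c q0| * y ^ e q0 * ∏ p ∈ S.erase q0, |e q0 - e p| ≤ η * ((2 : ℝ) ^ (A + 2) * X) ^ n := by
  have hX0 : 0 < X := by linarith
  induction n with
  | zero =>
    intro S e c q0 η x hS hq hη _ _ hx _ hsum
    obtain ⟨q, hSq⟩ := Finset.card_eq_one.1 hS
    have hqq : q0 = q := by rw [hSq] at hq; exact Finset.mem_singleton.1 hq
    subst hqq
    have h0 := hsum 0 (by norm_num)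
    rw [hSq, Finset.sum_singleton, abs_mul] at h0
    have hx0 := hx 0 (by norm_num)
    refine ⟨x 0, hx0.1, hx0.2, ?_⟩
    rw [hSq]
    have h1 : ({q0} : Finset ι).erase q0 = ∅ := by simp
    rw [h1, Finset.prod_empty, mul_one, pow_zero, mul_one]
    rwa [abs_of_nonneg (Real.rpow_nonneg (by linarith [hx0.1]) _)] at h0
  | succ n ih =>
    intro S e c q0 η x hS hq hη he hee hx hx1 hsum
    obtain ⟨p, hp⟩ : (S.erase q0).Nonempty := by
      rw [← Finset.card_pos, Finset.card_erase_of_mem hq, hS]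
      omega
    have hpq : p ≠ q0 := Finset.ne_of_mem_erase hp
    have hpS : p ∈ S := Finset.mem_of_mem_erase hp
    obtain ⟨μ, hμ0, hμ1, hμ2⟩ := exists_mu (he p hpS) hX
    set G : ℝ → ℝ := fun z => ∑ q ∈ S, c q * z ^ (e q - e p) with hG
    set G' : ℝ → ℝ := fun z => ∑ q ∈ S, c q * ((e q - e p) * z ^ (e q - e p - 1)) with hG'
    have hGd : ∀ z : ℝ, 0 < z → HasDerivAt G (G' z) z := by
      intro z hz
      refine HasDerivAt.fun_sum fun q _ => ?_
      exact (Real.hasDerivAt_rpow_const (Or.inl hz.ne')).const_mul (c q)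
    have hGb : ∀ k < 2 ^ (n + 1), |G (x k)| ≤ η * μ := by
      intro k hk
      obtain ⟨h1, h2⟩ := hx k hk
      have hxk : 0 < x k := by linarith
      have h3 : G (x k) = (∑ q ∈ S, c q * x k ^ e q) * x k ^ (-e p) := by
        rw [hG, Finset.sum_mul]
        refine Finset.sum_congr rfl fun q _ => ?_
        rw [sub_eq_add_neg, Real.rpow_add hxk, mul_assoc]
      rw [h3, abs_mul, abs_of_nonneg (Real.rpow_nonneg hxk.le (-e p))]
      exact mul_le_mul (hsum k hk) (hμ1 _ h1 h2) (Real.rpow_nonneg hxk.le _) hη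
    have hz : ∀ k, ∃ z, k < 2 ^ n → x (2 * k) ≤ z ∧ z ≤ x (2 * k + 1) ∧
        |G' z| ≤ 2 * (η * μ) := by
      intro k
      by_cases hk : k < 2 ^ n
      · have hk1 : 2 * k + 1 < 2 ^ (n + 1) := by
          rw [pow_succ]
          omega
        have hk0 : 2 * k < 2 ^ (n + 1) := by omega
        have hd := hx1 (2 * k) hk1
        have hpos : 0 < x (2 * k) := by linarith [(hx (2 * k) hk0).1]
        obtain ⟨z, hz1, hz2⟩ := exists_hasDerivAt_eq_slope G G'
          (show x (2 * k) < x (2 * k + 1) by linarith)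
          (fun t ht => (hGd t (lt_of_lt_of_le hpos ht.1)).continuousAt.continuousWithinAt)
          (fun t ht => hGd t (hpos.trans ht.1))
        refine ⟨z, fun _ => ⟨hz1.1.le, hz1.2.le, ?_⟩⟩
        rw [hz2, abs_div]
        have h4 : 1 ≤ |x (2 * k + 1) - x (2 * k)| := by
          rw [abs_of_nonneg (by linarith)]
          linarith
        have h5 : |G (x (2 * k + 1)) - G (x (2 * k))| ≤ 2 * (η * μ) := by
          have a1 := hGb _ hk1
          have a2 := hGb _ hk0
          have a3 := abs_sub (G (x (2 * k + 1))) (G (x (2 * k)))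
          linarith
        have h6 : 0 ≤ 2 * (η * μ) := by positivity
        rw [div_le_iff₀ (by linarith)]
        nlinarith
      · exact ⟨0, fun h => absurd h hk⟩
    choose z hz using hz
    have hS' : (S.erase p).card = n + 1 := by
      rw [Finset.card_erase_of_mem hpS, hS]
      omega
    have hq' : q0 ∈ S.erase p := Finset.mem_erase.2 ⟨hpq.symm, hq⟩
    obtain ⟨y, hy1, hy2, hy3⟩ := ih (S.erase p) (fun q => e q - e p - 1)
      (fun q => c q * (e q - e p)) q0 (2 * (η * μ)) z hS' hq' (by positivity)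
      (by
        intro q hqS
        have h1 := hee q (Finset.mem_of_mem_erase hqS) p hpS
        calc |e q - e p - 1| ≤ |e q - e p| + |(1 : ℝ)| := abs_sub _ _
          _ = |e q - e p| + 1 := by rw [abs_one]
          _ ≤ A := h1)
      (by
        intro q hqS r hrS
        have h1 := hee q (Finset.mem_of_mem_erase hqS) r (Finset.mem_of_mem_erase hrS)
        have h2 : e q - e p - 1 - (e r - e p - 1) = e q - e r := by ring
        show |e q - e p - 1 - (e r - e p - 1)| + 1 ≤ A
        rw [h2]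
        exact h1)
      (by
        intro k hk
        obtain ⟨h1, h2, _⟩ := hz k hk
        have hk1 : 2 * k + 1 < 2 ^ (n + 1) := by
          rw [pow_succ]
          omega
        exact ⟨(hx (2 * k) (by omega)).1.trans h1, h2.trans (hx (2 * k + 1) hk1).2⟩)
      (by
        intro k hk
        obtain ⟨_, h2, _⟩ := hz k (by omega)
        obtain ⟨h3, _, _⟩ := hz (k + 1) hk
        have hk1 : 2 * k + 1 + 1 < 2 ^ (n + 1) := by
          rw [pow_succ]
          omega
        have h4 := hx1 (2 * k + 1) hk1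
        have h5 : 2 * (k + 1) = 2 * k + 1 + 1 := by ring
        rw [h5] at h3
        linarith)
      (by
        intro k hk
        obtain ⟨_, _, h3⟩ := hz k hk
        have h4 : ∑ q ∈ S.erase p, c q * (e q - e p) * z k ^ (e q - e p - 1) = G' (z k) := by
          rw [hG']
          show _ = ∑ q ∈ S, c q * ((e q - e p) * z k ^ (e q - e p - 1))
          rw [← Finset.add_sum_erase S _ hpS, sub_self, zero_mul, mul_zero, zero_add]
          exact Finset.sum_congr rfl fun q _ => by ring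
        show |∑ q ∈ S.erase p, c q * (e q - e p) * z k ^ (e q - e p - 1)| ≤ 2 * (η * μ)
        rw [h4]
        exact h3)
    refine ⟨y, hy1, hy2, ?_⟩
    have hy0 : 0 < y := by linarith
    have hprod : ∏ r ∈ S.erase q0, |e q0 - e r| =
        |e q0 - e p| * ∏ r ∈ (S.erase p).erase q0, |e q0 - e p - 1 - (e r - e p - 1)| := by
      rw [← Finset.mul_prod_erase (S.erase q0) _ hp, Finset.erase_right_comm]
      congr 1
      refine Finset.prod_congr rfl fun r _ => ?_
      congr 1
      ring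
    have hpow : y ^ e q0 = y ^ (e q0 - e p - 1) * (y ^ e p * y) := by
      have h1 : e q0 = (e q0 - e p - 1) + (e p + 1) := by ring
      conv_lhs => rw [h1]
      rw [Real.rpow_add hy0, Real.rpow_add hy0, Real.rpow_one]
    set T : ℝ := ((2 : ℝ) ^ (A + 2) * X) ^ n with hT
    have hT0 : 0 ≤ T := by positivity
    have h8 : (2 : ℝ) ^ (A + 2) = (2 : ℝ) ^ A * 4 := by
      rw [Real.rpow_add (by norm_num)]
      norm_num
    have h9 := hμ2 y hy1 hy2
    have hyp : 0 ≤ y ^ e p := Real.rpow_nonneg hy0.le _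
    calc |c q0| * y ^ e q0 * ∏ r ∈ S.erase q0, |e q0 - e r|
        = (|c q0 * (e q0 - e p)| * y ^ (e q0 - e p - 1) *
            ∏ r ∈ (S.erase p).erase q0, |e q0 - e p - 1 - (e r - e p - 1)|) *
            (y ^ e p * y) := by
          rw [hprod, hpow, abs_mul]
          ring
      _ ≤ (2 * (η * μ) * T) * (y ^ e p * y) :=
          mul_le_mul_of_nonneg_right hy3 (by positivity)
      _ = (η * T * 2) * ((μ * y ^ e p) * y) := by ring
      _ ≤ (η * T * 2) * ((2 : ℝ) ^ A * (2 * X)) := by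
          refine mul_le_mul_of_nonneg_left ?_ (by positivity)
          exact mul_le_mul h9 hy2 hy0.le (by positivity)
      _ = η * ((2 : ℝ) ^ (A + 2) * X) ^ (n + 1) := by
          rw [pow_succ, ← hT, h8]
          ring

end LBDM

open LBDM in
theorem specLBD : SpecLBD := by
  intro ι _ S e c q0 A X η x hq hX hη he hee hx hx1 hsum
  have hS : S.card = (S.card - 1) + 1 := by
    have : 0 < S.card := Finset.card_pos.2 ⟨q0, hq⟩
    omega
  exact LBDM.main hX (S.card - 1) S e c q0 η x hS hq hη he hee hx hx1 hsum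

end Pool.Agent.Lib.MP3c6092.LE
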