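import Pool.Agent.Lib.MP_3c6092_nt.LE.Spec

/-!
# Module RDC: reduction to coprime exponents
-/

set_option autoImplicit false

namespace Pool.Agent.Lib.MP3c6092.LE

open Finset Pool.Agent.Lib.MP3c6092

namespace RDCM

theorem one_le_diff {a b m n : ℕ} (h : a ^ m ≠ b ^ n) :
    (1 : ℝ) ≤ |(a : ℝ) ^ m - (b : ℝ) ^ n| := by
  have h1 : (a : ℤ) ^ m - (b : ℤ) ^ n ≠ 0 := by
    intro h0
    apply h
    have h2 : (a : ℤ) ^ m = (b : ℤ) ^ n := by linarith
    exact_mod_cast h2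
  have h3 : (1 : ℤ) ≤ |(a : ℤ) ^ m - (b : ℤ) ^ n| := Int.one_le_abs h1
  have h4 : ((1 : ℤ) : ℝ) ≤ ((|(a : ℤ) ^ m - (b : ℤ) ^ n| : ℤ) : ℝ) := by exact_mod_cast h3
  push_cast at h4
  exact h4

end RDCM

/-- the same with the quotient of the exponents -/
theorem rdc_g : ∀ (k a b m n : ℕ), 1 ≤ k → 1 ≤ b → b < a → 2 * k ≤ m → 1 ≤ n → a ^ m ≠ b ^ n →
  |(a : ℝ) ^ m - (b : ℝ) ^ n| < (a : ℝ) ^ ((1 - 1 / (k : ℝ)) * m) →
  ∃ g m' n' : ℕ, 1 ≤ g ∧ m = g * m' ∧ n = g * n' ∧ m < k * m' ∧ 1 ≤ n' ∧ Nat.Coprime m' n' ∧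
    Bad (2 * k) a b m' n' := by
  intro k a b m n hk hb hba hkm hn hne hlt
  have hm : 1 ≤ m := by omega
  set g := Nat.gcd m n with hg
  have hg0 : 0 < g := Nat.gcd_pos_of_pos_left _ (by omega)
  obtain ⟨m', hm'⟩ := Nat.gcd_dvd_left m n
  obtain ⟨n', hn'⟩ := Nat.gcd_dvd_right m n
  rw [← hg] at hm' hn'
  have hm'0 : 1 ≤ m' := by
    rcases Nat.eq_zero_or_pos m' with h0 | h0
    · rw [h0] at hm'; omega
    · exact h0
  have hn'0 : 1 ≤ n' := by
    rcases Nat.eq_zero_or_pos n' with h0 | h0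
    · rw [h0] at hn'; omega
    · exact h0
  have ha0 : (0 : ℝ) < a := by exact_mod_cast (by omega : 0 < a)
  have ha1 : (1 : ℝ) ≤ a := by exact_mod_cast (by omega : 1 ≤ a)
  have hk0 : (0 : ℝ) < k := by exact_mod_cast (by omega : 0 < k)
  have hne' : a ^ m' ≠ b ^ n' := by
    intro he
    apply hne
    rw [hm', hn', mul_comm g m', mul_comm g n', pow_mul, pow_mul, he]
  have e2 : (m : ℝ) = g * m' := by exact_mod_cast hm'
  have hkey : |(a : ℝ) ^ m' - (b : ℝ) ^ n'| < (a : ℝ) ^ ((m' : ℝ) - 1 / (k : ℝ) * m) := by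
    have h1 := pow_diff (x := (a : ℝ) ^ m') (y := (b : ℝ) ^ n') (by positivity) (by positivity) hg0
    rw [← pow_mul, ← pow_mul, ← pow_mul, mul_comm m' g, mul_comm n' g, ← hm', ← hn'] at h1
    have h2 := h1.trans_lt hlt
    have h3 : (0 : ℝ) < (a : ℝ) ^ (m' * (g - 1)) := by positivity
    rw [← lt_div_iff₀ h3] at h2
    refine h2.trans_le (le_of_eq ?_)
    rw [← Real.rpow_natCast (a : ℝ) (m' * (g - 1)), ← Real.rpow_sub ha0]
    have e1 : ((m' * (g - 1) : ℕ) : ℝ) = m' * (g - 1) := by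
      rw [Nat.cast_mul, Nat.cast_sub hg0, Nat.cast_one]
    have e3 : (1 - 1 / (k : ℝ)) * (m : ℝ) - ((m' * (g - 1) : ℕ) : ℝ) =
        (m' : ℝ) - 1 / (k : ℝ) * m := by
      rw [e1]
      have e4 : (1 - 1 / (k : ℝ)) * (m : ℝ) = m - 1 / (k : ℝ) * m := by ring
      rw [e4]
      linarith [e2, show (m' : ℝ) * (g - 1) = g * m' - m' by ring]
    rw [e3]
  have hpos : 1 / (k : ℝ) * m < m' := by
    by_contra hc
    have h1 : (m' : ℝ) - 1 / (k : ℝ) * m ≤ 0 := by linarith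
    have h2 := Real.rpow_le_one_of_one_le_of_nonpos ha1 h1
    have h3 := RDCM.one_le_diff hne'
    linarith
  refine ⟨g, m', n', hg0, hm', hn', ?_, hn'0, ?_, hne', ?_⟩
  · have h1 : (m : ℝ) < k * m' := by
      rw [one_div, inv_mul_lt_iff₀ hk0] at hpos
      exact hpos
    exact_mod_cast h1
  · have h1 : Nat.gcd (g * m') (g * n') = g := by rw [← hm', ← hn']
    rw [Nat.gcd_mul_left] at h1
    exact Nat.eq_of_mul_eq_mul_left hg0 (by rw [h1, mul_one])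
  · refine hkey.trans_le ?_
    apply Real.rpow_le_rpow_of_exponent_le ha1
    have hm'm : (m' : ℝ) ≤ m := by
      have h1 : m' ≤ m := by
        rw [hm']
        exact Nat.le_mul_of_pos_left m' hg0
      exact_mod_cast h1
    have h2 : (1 : ℝ) ≤ 1 / (2 * (k : ℝ)) * m := by
      rw [one_div, inv_mul_eq_div, le_div_iff₀ (by positivity), one_mul]
      exact_mod_cast hkm
    have h3 : 1 / (2 * (k : ℝ)) * (m' : ℝ) ≤ 1 / (2 * (k : ℝ)) * m :=
      mul_le_mul_of_nonneg_left hm'm (by positivity)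
    have h4 : 1 / (k : ℝ) * (m : ℝ) = 1 / (2 * (k : ℝ)) * m + 1 / (2 * (k : ℝ)) * m := by
      field_simp
      ring
    have h5 : (1 - 1 / ((2 * k : ℕ) : ℝ)) * (m' : ℝ) - 1 =
        m' - 1 / (2 * (k : ℝ)) * m' - 1 := by
      push_cast
      ring
    rw [h4, h5]
    linarith

theorem specRDC : SpecRDC := by
  intro k a b m n hk hb hba hkm hn hne hlt
  obtain ⟨_, m', n', _, _, _, h1, h2, h3, h4⟩ := rdc_g k a b m n hk hb hba hkm hn hne hlt
  exact ⟨m', n', h1, h2, h3, h4⟩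

end Pool.Agent.Lib.MP3c6092.LE
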