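import Pool.Agent.Lib.MP_3c6092_nt.Main

/-!
# MP_3c6092_nt: large exponents.  Specification (captain: helper68)

THEOREM (hand-in `LargeExponents`).  For all `δ, ε > 0` there are `M`, `C` such that for every `N` at most
`C N ^ ε` pairs `(a, b)`, `1 ≤ b < a ≤ N`, have exponents `m ≥ M`, `n ≥ 1` with `a ^ m ≠ b ^ n` and
`|a ^ m - b ^ n| < a ^ ((1 - δ) m)`.

IDEA.  For fixed coprime `m, n`, `θ = n / m`, the points `(b, a)` are extremely close to the curve `a = b ^ θ`.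
The determinant of the monomials `b ^ i a ^ j` (`i, j < d`) at `d ^ 2` points in an interval of length
`X ^ (1 - 1 / s)` (`b` about `X`) is an integer of absolute value `< 1` (UPD, interpolation determinants), so a linear
combination of the monomials vanishes at all points of the interval; so a combination of the powers
`b ^ (i + θ j)` is extremely small at all these integers `b`, which is impossible for `2 ^ (d ^ 2 - 1)` of them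
(LBD, repeated mean value theorem; the exponents `i + θ j` are different).  So there are at most
`X ^ (1 / s)` times a constant such `b`.  The exponents `m > N ^ (1 / s)` are excluded by `gelfond` (`Gelfond.lean`).

All modules are independent: file `LE/XXX.lean`, `import Pool.Agent.Lib.MP_3c6092_nt.LE.Spec` only,
namespace `Pool.Agent.Lib.MP3c6092.LE`, `theorem specXXX (hYYY : SpecYYY) .. : SpecXXX` (hypotheses in the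
order of USES), own lemmas in a namespace `XXXM`.
-/

set_option autoImplicit false

namespace Pool.Agent.Lib.MP3c6092.LE

open Finset Pool.Agent.Lib.MP3c6092

/-- the exponent of `b` in the monomial with the index `v` -/
def ei (d : ℕ) (v : Fin (d * d)) : ℕ := ((finProdFinEquiv.symm v).1 : ℕ)

/-- the exponent of `a` -/
def ej (d : ℕ) (v : Fin (d * d)) : ℕ := ((finProdFinEquiv.symm v).2 : ℕ)

/-- MODULE LBD (90 lines).  A sum of powers with different exponents is not small at `2 ^ (|S| - 1)` points with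
distances `≥ 1`.
PROOF.  Induction on `|S|`.  `|S| = 1`: `y = x 0`.  Otherwise choose `p ∈ S`, `p ≠ q0`.  `G z = z ^ (- e p) * ∑ c q z ^ e q =
∑ c q z ^ (e q - e p)`; on `[X, 2 X]` `|z ^ (- e p)| ≤ μ`, `μ = max (X ^ (- e p)) ((2 X) ^ (- e p))`, so
`|G (x k)| ≤ η μ`.  For `k < 2 ^ (|S| - 2)` the mean value theorem gives `z k` between `x (2 k)` and `x (2 k + 1)` (distance
`≥ 1`) with `|G' (z k)| ≤ 2 η μ`, and `z k + 1 ≤ z (k + 1)`, as `x (2 k + 1) + 1 ≤ x (2 k + 2)`.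
`G' z = ∑ q ∈ S.erase p, c q (e q - e p) z ^ (e q - e p - 1)`.  Induction hypothesis for `S.erase p`, the
coefficients `c q (e q - e p)`, the exponents `e q - e p - 1` (absolute value at most `A`; their differences are the old ones),
`η' = 2 η μ`: some `y` in `[X, 2 X]` has
`|c q0| |e q0 - e p| y ^ (e q0 - e p - 1) ∏ (the rest) ≤ 2 η μ (2 ^ (A + 2) X) ^ (|S| - 2)`.  Multiply by `y ^ (e p + 1)`:
`μ y ^ (e p) ≤ 2 ^ A` (`y`, `X`, `2 X` have quotients between `1/2` and `2`, `|e p| ≤ A`) and `y ≤ 2 X`, so the factor is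
`2 * 2 ^ A * 2 X = 2 ^ (A + 2) X`. -/
def SpecLBD : Prop := ∀ (ι : Type) [DecidableEq ι] (S : Finset ι) (e c : ι → ℝ) (q0 : ι) (A X η : ℝ) (x : ℕ → ℝ),
  q0 ∈ S → 1 ≤ X → 0 ≤ η → (∀ p ∈ S, |e p| ≤ A) → (∀ p ∈ S, ∀ q ∈ S, |e p - e q| + 1 ≤ A) →
  (∀ k < 2 ^ (S.card - 1), X ≤ x k ∧ x k ≤ 2 * X) →
  (∀ k, k + 1 < 2 ^ (S.card - 1) → x k + 1 ≤ x (k + 1)) →
  (∀ k < 2 ^ (S.card - 1), |∑ p ∈ S, c p * x k ^ e p| ≤ η) →
  ∃ y : ℝ, X ≤ y ∧ y ≤ 2 * X ∧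
    |c q0| * y ^ e q0 * ∏ p ∈ S.erase q0, |e q0 - e p| ≤ η * ((2 : ℝ) ^ (A + 2) * X) ^ (S.card - 1)

/-- MODULE UPD (90 lines).  The determinant is small.
PROOF.  `Pool.Agent.Lib.MP_524521_nt.RA.interp_det` with `N = d * d`, `h = 1`, `K = (d * d / 2) * (d * d / 2)`, `s₀ = b₀`, `r = ℓ`,
`ρ = X / 2`, `R' = 3 X / 4`, `W₀ = (3 X) ^ (d (1 + Θ))`, `u = 1`, `s j = b j`, `w v z = z ^ ei d v * exp (θ * ej d v * log z)`
(holomorphic for `re z > 0`; `|z| ≤ 3 X` on the closed ball, `|exp (t log z)| = |z| ^ t` for real `t`), `err` = the difference.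
The proof of `core` in `Core.lean` is a model (same lemma, same transposition and cast). -/
def SpecUPD : Prop := ∀ (d : ℕ) (θ Θ X ℓ b₀ : ℝ) (b a : Fin (d * d) → ℕ), 0 ≤ θ → θ ≤ Θ → 1 ≤ X → 0 < ℓ →
  4 * ℓ ≤ X → X ≤ b₀ → b₀ ≤ 2 * X → (∀ u, |(b u : ℝ) - b₀| ≤ ℓ) →
  (∀ u v, |(b u : ℝ) ^ ei d v * (a u : ℝ) ^ ej d v - (b u : ℝ) ^ ((ei d v : ℝ) + θ * ej d v)| ≤
    (3 * X) ^ ((d : ℝ) * (1 + Θ)) * (2 * ℓ / X) ^ ((d * d / 2) * (d * d / 2))) →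
  |(Matrix.of fun u v : Fin (d * d) => (b u : ℝ) ^ ei d v * (a u : ℝ) ^ ej d v).det| ≤
    ((d * d).factorial : ℝ) *
      (((((d * d / 2) * (d * d / 2) : ℕ) : ℝ) + 1) * (3 * (3 * X) ^ ((d : ℝ) * (1 + Θ)))) ^ (d * d) *
      (2 * ℓ / X) ^ ((d * d / 2) * (d * d / 2))

/-- MODULE ERR (70 lines).  The error of one monomial.
PROOF.  `τ = X ^ (- m / K) ≤ 1 / 2`.  `u = b ^ (n / m) / a`, `u ^ m = b ^ n / a ^ m`; `Bad` gives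
`|u ^ m - 1| < a ^ (- m / K - 1) ≤ τ` (`a ≥ X ≥ 1`), so `|u - 1| ≤ |u ^ m - 1| ≤ τ` (geometric sum, `m ≥ 1`), `1/2 ≤ u ≤ 2`,
`|1 - u ^ j| ≤ |1 - u| (1 + u + ... + u ^ (j - 1)) ≤ 2 ^ j τ`.  So `|a ^ j - b ^ (n / m * j)| ≤ a ^ j 2 ^ j τ` and
`a ^ j ≤ 2 ^ j b ^ (n / m * j)`; `b ≤ 2 X`, `i + n / m * j ≤ d (1 + Θ)`. -/
def SpecERR : Prop := ∀ (K a b m n d i j : ℕ) (Θ X : ℝ), 1 ≤ K → Bad K a b m n → 1 ≤ m → b < a → 1 ≤ X →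
  X ≤ b → (b : ℝ) ≤ 2 * X → (n : ℝ) ≤ Θ * m → 2 ≤ X ^ ((m : ℝ) / K) → i < d → j < d →
  |(b : ℝ) ^ i * (a : ℝ) ^ j - (b : ℝ) ^ ((i : ℝ) + (n : ℝ) / m * j)| ≤
    4 ^ d * (2 * X) ^ ((d : ℝ) * (1 + Θ)) / X ^ ((m : ℝ) / K)

/-- MODULE FIB (helper68).  USES `SpecLBD`, `SpecUPD`, `SpecERR`. -/
def SpecFIB : Prop := ∀ (s K : ℕ), 1 ≤ s → 1 ≤ K → ∃ D M X₀ : ℕ, ∀ (m n : ℕ) (X : ℝ) (F : Finset ℕ),
  Nat.Coprime m n → M ≤ m → n ≤ s * m → (X₀ : ℝ) ≤ X → (m : ℝ) ≤ 2 * X →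
  (∀ b ∈ F, X ≤ b ∧ (b : ℝ) ≤ 2 * X) → (∀ b ∈ F, ∃ a, b < a ∧ Bad K a b m n) →
  (F.card : ℝ) ≤ (X ^ (1 / (s : ℝ)) + 1) * D

/-- MODULE BSB (110 lines).  USES `SpecFIB`.  The number of the smaller bases for given exponents.
PROOF.  `D, M, X₀` from `SpecFIB`; `M' = max M 1`, `C = X₀ + 3 + 2 D`.  If `n > s m`: `card_Bs_triv` gives
`≤ (2 N) ^ (m / n) ≤ (2 N) ^ (1 / s) ≤ 2 N ^ (1 / s)`.  Otherwise split `Bs K m n N` by `j = Nat.log 2 b ≤ Nat.log 2 N` as in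
`card_Bs_log` (`Count.lean`); `X = 2 ^ j`, `X ≤ b < 2 X`.  If `X₀ ≤ X` and `m ≤ 2 X`: `SpecFIB` and `X ≤ N` (if the part is not empty)
give `≤ 2 D N ^ (1 / s)`.  Otherwise the part has at most `2 ^ j = X` elements, and `X < X₀` or `X < m ≤ N ^ (1 / s)`
(`m ^ s ≤ N`). -/
def SpecBSB : Prop := ∀ (s K : ℕ), 1 ≤ s → 1 ≤ K → ∃ (M : ℕ) (C : ℝ), 1 ≤ M ∧ 0 ≤ C ∧ ∀ (N m n : ℕ), 1 ≤ N →
  Nat.Coprime m n → M ≤ m → 1 ≤ n → m ^ s ≤ N →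
  ((Bs K m n N).card : ℝ) ≤ C * (N : ℝ) ^ (1 / (s : ℝ)) * ((Nat.log 2 N + 1 : ℕ) : ℝ)

/-- MODULE RDC (80 lines).  Reduction to coprime exponents, without loss of their size.
PROOF.  `g = gcd m n`, `m = m' g`, `n = n' g` (`g ≥ 1` as `m ≥ 1`).  `pow_diff` (`Red.lean`) for `x = a ^ m'`, `y = b ^ n'`:
`|a ^ m' - b ^ n'| a ^ (m' (g - 1)) ≤ |a ^ m - b ^ n| < a ^ ((1 - 1 / k) m)`, so `|a ^ m' - b ^ n'| < a ^ (m' - m / k)`.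
`a ^ m' ≠ b ^ n'` are integers, so `1 < a ^ (m' - m / k)`, `m / k < m'`.  `Bad (2 k)`:
`m' - m / k ≤ (1 - 1 / (2 k)) m' - 1` since `m' ≤ m` and `m ≥ 2 k`. -/
def SpecRDC : Prop := ∀ (k a b m n : ℕ), 1 ≤ k → 1 ≤ b → b < a → 2 * k ≤ m → 1 ≤ n → a ^ m ≠ b ^ n →
  |(a : ℝ) ^ m - (b : ℝ) ^ n| < (a : ℝ) ^ ((1 - 1 / (k : ℝ)) * m) →
  ∃ m' n' : ℕ, m < k * m' ∧ 1 ≤ n' ∧ Nat.Coprime m' n' ∧ Bad (2 * k) a b m' n'

/-- MODULE TOT (170 lines).  USES `SpecBSB`, `SpecRDC`.  The theorem.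
PROOF.  `k = ⌈1 / δ⌉₊`, `K = 2 k`, `s = ⌈8 / ε⌉₊` (so `4 / s ≤ ε / 2`), `M₁, C₁` from `SpecBSB s K`, `m0` from `gelfond K s`.
`M = k M₁ + 2 k`.  `(1 - δ) m ≤ (1 - 1 / k) m` as `1 / k ≤ δ`.  For `(a, b)` in the set `SpecRDC` gives coprime `m', n'`, `m' > m / k ≥ M₁`,
`Bad K a b m' n'`; `Red.lean`: `2 ≤ b` (`two_le_b`), `m' < n'` (`lt_n`), `Indep a b` (`indep`).  Claim: `m' ^ s ≤ N` if `m0 ^ s ≤ N`:
otherwise `m' ≥ m0`, `a ≤ N < m' ^ s`, so `gelfond` contradicts `Bad`.  `2 ^ n' ≤ b ^ n' ≤ 2 a ^ m' ≤ 2 N ^ m'` (`b_le`) gives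
`n' ≤ m' (Nat.log 2 N + 1) + 1`.  So the set is contained in the union of the `Tmn K m' n' N` (`Main.lean`) over the coprime
`m', n'` with `M₁ ≤ m'`, `m' ^ s ≤ N` (so `m' ≤ N ^ (1 / s)`), `1 ≤ n' ≤ m' (Nat.log 2 N + 1) + 1`; `card_Tmn`, `SpecBSB`:
at most `N ^ (1 / s) * (3 N ^ (1 / s) (L + 1)) * C₁ N ^ (1 / s) (L + 1)` pairs, `L = Nat.log 2 N`; `L + 1 ≤ C N ^ (1 / (2 s))` (the end of
the proof of `main` in `Main.lean` has such an estimate).  If `N < m0 ^ s` the set has at most `N ^ 2 ≤ m0 ^ (2 s)` elements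
(`N ≥ 1`, `N ^ ε ≥ 1`). -/
def SpecTOT : Prop := ∀ δ ε : ℝ, 0 < δ → 0 < ε → ∃ (M : ℕ) (C : ℝ), ∀ N : ℕ, 1 ≤ N →
  (({p : ℕ × ℕ | 1 ≤ p.2 ∧ p.2 < p.1 ∧ p.1 ≤ N ∧ ∃ m n : ℕ, M ≤ m ∧ 1 ≤ n ∧ p.1 ^ m ≠ p.2 ^ n ∧
    |(p.1 : ℝ) ^ m - (p.2 : ℝ) ^ n| < (p.1 : ℝ) ^ ((1 - δ) * m)}.ncard : ℕ) : ℝ) ≤ C * (N : ℝ) ^ ε

end Pool.Agent.Lib.MP3c6092.LE
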